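import Pool.Agent.Lib.MP_4e7873_nt.Defs

namespace Pool.Agent.Lib.SC17

/-- The contribution `L ^ (2 s) ∏_{j=1}^d min (δ, L ^ (-j))` of the initial segment `n ≤ L`. -/
noncomputable def spike (s : ℝ) (d : ℕ) (δ : ℝ) (L : ℕ) : ℝ :=
  (L : ℝ) ^ (2 * s) * ∏ j : Fin d, min δ ((L : ℝ) ^ (j.val + 1))⁻¹

/-- `δ ^ d N ^ s + max_{1 ≤ L ≤ N} L ^ (2 s) ∏_{j=1}^d min (δ, L ^ (-j))`. -/
noncomputable def order (s : ℝ) (d : ℕ) (δ : ℝ) (N : ℕ) : ℝ :=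
  δ ^ d * (N : ℝ) ^ s + ⨆ L : Set.Icc 1 N, spike s d δ L

end Pool.Agent.Lib.SC17
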