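import Pool.Agent.Lib.SC.All17
import Pool.Agent.Lib.SC17.Defs

/-! The core estimate at the true critical exponent and the passage to smaller cubes. -/

namespace Pool.Agent.Lib.SC17

open MeasureTheory Filter Finset WC SC

variable {d : ℕ}

lemma bas : Bas := ⟨blk_CV1, blk_CV2 blk_CV1, blk_WR, blk_SL0, blk_GE0⟩

lemma gau : St_GAU := blk_GAU bas (blk_SLM bas) (blk_SLW bas) (blk_SLB bas) blk_FR

lemma stp : St_STEP := by
  have slm := blk_SLM bas
  have slo := blk_SLO bas
  have slr := blk_SLR bas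
  have ge1 := blk_GE1 blk_GE0
  have ge2 := blk_GE2 blk_GE0
  have phi := blk_PHI blk_GE0 ge2
  have cone := blk_CONE bas slm (blk_SLD bas) slr gau ge1 phi (blk_CG blk_GE0 ge2) (blk_REF bas)
  exact blk_STEP bas ge1 blk_BN (blk_TOP bas slm slo (blk_TOPG blk_GE0 ge1 ge2 blk_MULT)
    (blk_TOP0 bas)) (blk_TREE bas slm slo gau phi (blk_LOW blk_CV1))
    (blk_BROAD bas slr phi blk_PT (blk_CH bas slr blk_PT) cone)

lemma params {s : ℝ} (h4 : 4 ≤ s) (h1 : s ≤ sd d) : ∃ (D e : ℕ) (l : ℝ), d + 1 = D + e ∧ 1 ≤ e ∧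
    3 ≤ D ∧ 0 < l ∧ l ≤ D ∧ (D = 3 → 1 ≤ l) ∧ 2 * s = D * (D - 1) + 2 * l := by
  classical
  have hd : 2 * s ≤ (d : ℝ) * (d + 1) := by rw [sd_cast] at h1; linarith
  have hex : ∃ D : ℕ, 2 * s ≤ (D : ℝ) * (D + 1) := ⟨d, hd⟩
  have a1 := Nat.find_spec hex
  have a2 := Nat.find_min' hex hd
  have a3 := fun m => Nat.find_min hex (m := m)
  generalize Nat.find hex = D at a1 a2 a3
  have hD : 3 ≤ D := by
    by_contra hc
    have : (D : ℝ) ≤ 2 := by exact_mod_cast (by omega : D ≤ 2)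
    have : (0 : ℝ) ≤ D := Nat.cast_nonneg _
    nlinarith
  have a4 := not_le.mp (a3 (D - 1) (by omega))
  rw [Nat.cast_sub (by omega)] at a4
  push_cast at a4
  refine ⟨D, d + 1 - D, s - D * (D - 1) / 2, by omega, by omega, hD, by linarith, by linarith,
    fun h => ?_, by ring⟩
  rw [h]; push_cast; linarith

/-- square root cancellation at the exponent where the spike at the origin takes over -/
lemma core {s ε : ℝ} (h4 : 4 ≤ s) (h1 : s ≤ sd d) (hε : 0 < ε) :
    ∃ η C : ℝ, 0 ≤ η ∧ ∑ j : Fin d, max ((j.val : ℝ) + 1 - η) 0 = s ∧ 1 ≤ C ∧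
      ∀ (n h : ℕ) (a : ℕ → ℂ), (h : ℝ) ≤ n * η → (∀ y, ‖a y‖ ≤ 1) →
        II 0 (2 ^ h) (fun x => ‖fa d a (2 ^ n) (2 ^ n) x‖ ^ (2 * s)) ≤
          C * ((2 : ℝ) ^ n) ^ (s + ε) := by
  obtain ⟨D, e, l, hde, he, hD, hl, hlD, h3, hP⟩ := params h4 h1
  have hDr : (3 : ℝ) ≤ D := by exact_mod_cast hD
  have her : (1 : ℝ) ≤ e := by exact_mod_cast he
  have q1 : l / D ≤ 1 := (div_le_one (by linarith)).2 hlD
  have q0 : 0 < l / D := by positivity
  obtain ⟨C, hC, H⟩ := CORE.chain bas (blk_TRANS bas gau (blk_GE1 blk_GE0)) stp blk_ITER d D e l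
    (2 * s) (ε / D) hde he hD hl hlD h3 hP (by positivity) (D - 1) 0 (by omega)
  refine ⟨e - l / D, C, by linarith, ?_, hC, fun n h a hh ha => ?_⟩
  · obtain ⟨e, rfl⟩ : ∃ e', e = e' + 1 := ⟨e - 1, by omega⟩
    obtain rfl : d = e + D := by omega
    rw [Fin.sum_univ_eq_sum_range (fun j => max ((j : ℝ) + 1 - (((e + 1 : ℕ) : ℝ) - l / D)) 0),
      sum_range_add, sum_eq_zero, zero_add]
    · have h5 : ∀ k : ℕ, ∑ x ∈ range k, ((x : ℝ) + l / D) = k * (k - 1) / 2 + k * (l / D) := by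
        intro k
        induction k with
        | zero => simp
        | succ k ih => rw [sum_range_succ, ih]; push_cast; ring
      have h6 : (D : ℝ) * (l / D) = l := by field_simp
      rw [sum_congr rfl (g := fun x : ℕ => (x : ℝ) + l / D), h5, h6]
      · linarith
      · intro x _
        have : (0 : ℝ) ≤ x := Nat.cast_nonneg _
        push_cast
        rw [max_eq_left (by linarith)]; ring
    · intro x hx
      have : (x : ℝ) + 1 ≤ e := by exact_mod_cast mem_range.1 hx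
      push_cast
      exact max_eq_right (by linarith)
  have hX := H n h a hh ha
  rw [CORE.lv_zero (by omega)] at hX
  have e1 : XL d 0 (2 ^ h) (2 * s) a n 0 =
      II 0 (2 ^ h) (fun x => (1 + ‖fa d a (2 ^ n) (2 ^ n) x‖ ^ 2) ^ (2 * s / 2)) := by
    simp [XL, XX]
  have e2 : ((n : ℝ) - (0 : ℕ)) * (2 * s / 2 - 1) + (((D - 1 : ℕ) : ℝ) + 1) * (ε / D * n) + n =
      n * (s + ε) := by
    rw [Nat.cast_sub (by omega)]
    field_simp
    push_cast
    ring
  rw [e1, e2, Real.rpow_natCast_mul two_pos.le] at hX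
  refine le_trans ?_ hX
  have hc := bas.wr.fa_cont d a (2 ^ n) (2 ^ n)
  have hW := bas.wr.cont d 0 (2 ^ h) (by positivity)
  refine integral_mono (cint (((Real.continuous_rpow_const (by linarith)).comp hc.norm).mul hW))
    (cint (((Real.continuous_rpow_const (by linarith)).comp (by fun_prop)).mul hW)) fun x => ?_
  refine mul_le_mul_of_nonneg_right ?_ (bas.wr.pos d 0 _ x (by positivity)).le
  beta_reduce
  rw [show 2 * s = ((2 : ℕ) : ℝ) * s by norm_num, Real.rpow_natCast_mul (norm_nonneg _),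
    show ((2 : ℕ) : ℝ) * s / 2 = s by push_cast; ring]
  exact Real.rpow_le_rpow (by positivity) (by linarith) (by linarith)

lemma le_box (r : Fin d → ℝ) (h0 : ∀ j, 0 ≤ r j) (h1 : ∀ j, r j ≤ 1) :
    ∏ j, r j ≤ volume.real {y : TT d | ∀ j, ‖y j‖ ≤ r j} := by
  have : {y : TT d | ∀ j, ‖y j‖ ≤ r j} = Set.univ.pi fun j => Metric.closedBall 0 (r j) := by
    ext x; simp
  rw [this, Measure.real, volume_pi_pi, ENNReal.toReal_prod]
  refine prod_le_prod (fun j _ => h0 j) fun j _ => ?_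
  rw [AddCircle.volume_closedBall, ENNReal.toReal_ofReal (le_min zero_le_one (by linarith [h0 j]))]
  exact le_min (h1 j) (by linarith [h0 j])

lemma vol_inter (r : Fin d → ℝ) (h0 : ∀ j, 0 ≤ r j) {δ : ℝ} (hδ : 0 ≤ δ) (z : TT d) :
    volume.real (Metric.closedBall (0 : TT d) δ ∩ {x | ∀ j, ‖(z - x) j‖ ≤ r j}) ≤
      ∏ j, 2 * min δ (r j) := by
  refine le_trans (measureReal_mono ?_) (vol_box (fun j => if δ ≤ r j then 0 else z j) _
    fun j => le_min hδ (h0 j))
  rintro x ⟨h1, h2⟩ j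
  split_ifs with h
  · rw [min_eq_left h]; exact (mem_ball_iff hδ).1 h1 j
  · rw [min_eq_right (not_le.mp h).le, norm_sub_rev]; exact h2 j

/-- a function that is slowly varying on a box -/
lemma box {g w : TT d → ℝ} (hg : Continuous g) (g0 : ∀ x, 0 ≤ g x) (hw : Continuous w)
    (w0 : ∀ x, 0 ≤ w x) (r : Fin d → ℝ) (h0 : ∀ j, 0 ≤ r j) (h1 : ∀ j, r j ≤ 1) {K δ : ℝ}
    (hK : 0 ≤ K) (hδ : 0 ≤ δ) (hgK : ∀ x y : TT d, (∀ j, ‖y j‖ ≤ r j) → g x ≤ K * g (y + x))
    (hw1 : ∀ z : TT d, (∀ j, ‖z j‖ ≤ δ + r j) → 1 ≤ w z) :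
    (∏ j, r j) * ∫ x in Metric.closedBall 0 δ, g x ≤
      K * ((∏ j, 2 * min δ (r j)) * ∫ z, g z * w z) := by
  set Q : Set (TT d) := {y | ∀ j, ‖y j‖ ≤ r j} with hQ
  set B : Set (TT d) := Metric.closedBall 0 δ with hB
  have cQ : IsClosed Q := by
    rw [hQ, Set.ofPred_forall]
    exact isClosed_iInter fun j => isClosed_le (by fun_prop) continuous_const
  have mS : MeasurableSet {p : TT d × TT d | p.2 - p.1 ∈ Q} :=
    (cQ.preimage (continuous_snd.sub continuous_fst)).measurableSet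
  have hi : Integrable (Function.uncurry fun x z : TT d => Q.indicator (fun _ => g z) (z - x))
      ((volume.restrict B).prod volume) :=
    (cint (μ := (volume.restrict B).prod volume) (hg.comp continuous_snd)).indicator mS
  have a1 : (∏ j, r j) * ∫ x in B, g x ≤
      K * ∫ x in B, ∫ z, Q.indicator (fun _ => g z) (z - x) := by
    rw [← integral_const_mul, ← integral_const_mul]
    refine integral_mono ((cint hg).const_mul _) (hi.integral_prod_left.const_mul _) fun x => ?_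
    have e : ∫ z, Q.indicator (fun _ => g z) (z - x) = ∫ y in Q, g (y + x) := by
      rw [← int_add _ x, ← integral_indicator cQ.measurableSet]
      simp only [add_sub_cancel_right]; rfl
    beta_reduce
    rw [e, ← integral_const_mul]
    refine le_trans (mul_le_mul_of_nonneg_right (le_box r h0 h1) (g0 x)) ?_
    rw [mul_comm]
    exact setIntegral_ge_of_const_le_real cQ.measurableSet (measure_ne_top _ _)
      (fun y hy => hgK x y hy) (cint (by fun_prop))
  refine a1.trans (mul_le_mul_of_nonneg_left ?_ hK)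
  rw [integral_integral_swap hi, ← integral_const_mul]
  refine integral_mono hi.integral_prod_right ((cint (hg.mul hw)).const_mul _) fun z => ?_
  have p0 : 0 ≤ ∏ j, 2 * min δ (r j) :=
    prod_nonneg fun j _ => mul_nonneg zero_le_two (le_min hδ (h0 j))
  have mz : MeasurableSet {x : TT d | z - x ∈ Q} :=
    (cQ.preimage (continuous_const.sub continuous_id)).measurableSet
  have e : ∫ x in B, Q.indicator (fun _ => g z) (z - x) =
      volume.real (B ∩ {x | z - x ∈ Q}) * g z := by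
    rw [Set.inter_comm, ← measureReal_restrict_apply mz, ← smul_eq_mul,
      ← integral_indicator_const _ mz]
    rfl
  beta_reduce
  rw [e]
  rcases (B ∩ {x | z - x ∈ Q}).eq_empty_or_nonempty with h | ⟨x, hx, hx'⟩
  · rw [h, measureReal_empty, zero_mul]
    exact mul_nonneg p0 (mul_nonneg (g0 z) (w0 z))
  · refine mul_le_mul (vol_inter r h0 hδ z) (le_mul_of_one_le_right (g0 z) (hw1 z fun j => ?_))
      (g0 z) p0
    have b1 := (mem_ball_iff hδ).1 hx j
    have b2 : ‖z j - x j‖ ≤ r j := hx' j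
    rw [Pi.zero_apply, sub_zero] at b1
    have := norm_add_le (x j) (z j - x j)
    rw [add_sub_cancel] at this
    linarith

/-- the gauge of an anisotropic box -/
noncomputable def gb (R : Fin d → ℝ) : Seminorm ℝ (V d) :=
  Seminorm.of (fun P => ∑ j, |R j| * |P j|)
    (fun P T => by
      rw [← sum_add_distrib]
      refine sum_le_sum fun j _ => ?_
      rw [← mul_add]
      exact mul_le_mul_of_nonneg_left (abs_add_le _ _) (abs_nonneg _))
    (fun t P => by
      rw [mul_sum]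
      refine sum_congr rfl fun j _ => ?_
      simp only [Pi.smul_apply, smul_eq_mul, abs_mul, Real.norm_eq_abs]; ring)

lemma gb_apply (R : Fin d → ℝ) (P : V d) : gb R P = ∑ j, |R j| * |P j| := rfl

/-- local constancy -/
lemma loc {s : ℝ} (hs : 1 ≤ s) : ∃ C : ℝ, 1 ≤ C ∧ ∀ (H δ : ℝ) (R : Fin d → ℝ) (f : TT d → ℂ),
    1 ≤ H → 0 ≤ δ → δ ≤ 1 / H → (∀ j, H ≤ R j) → f ∈ Sp {ω | ∀ j, |(ω j : ℝ)| ≤ R j} →
      ∫ x in Metric.closedBall 0 δ, ‖f x‖ ^ (2 * s) ≤
        C * (∏ j, R j / H * min δ (R j)⁻¹) * II 0 H fun x => ‖f x‖ ^ (2 * s) := by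
  obtain ⟨C, hC, hG⟩ := gau d (2 * d)
  have hCs : 1 ≤ C ^ s := Real.one_le_rpow hC (by linarith)
  refine ⟨C ^ s * ((1 + d) ^ ((2 * d + 2) * d) * (18 ^ d * C)), one_le_mul_of_one_le_of_one_le hCs
    (one_le_mul_of_one_le_of_one_le (one_le_pow₀ (by simp)) (one_le_mul_of_one_le_of_one_le
      (one_le_pow₀ (by norm_num)) hC)), fun H δ R f hH hδ hδH hR hf => ?_⟩
  have H0 : 0 < H := by linarith
  have R0 : ∀ j, 0 < R j := fun j => H0.trans_le (hR j)
  obtain ⟨⟨W, hW⟩, -⟩ := hG (gb R) fun P hP => by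
    funext j
    rw [gb_apply] at hP
    have := (sum_eq_zero_iff_of_nonneg fun j _ => by positivity).1 hP j (mem_univ j)
    simpa [(R0 j).ne'] using this
  have := hW.prob
  have fc : Continuous f := Sp_cont hf
  have Fc : Continuous fun x => ‖f x‖ ^ (2 * s) :=
    (Real.continuous_rpow_const (by linarith)).comp fc.norm
  have F0 : ∀ x, 0 ≤ ‖f x‖ ^ (2 * s) := fun x => by positivity
  have e2 : ∀ x, ‖f x‖ ^ (2 * s) = (‖f x‖ ^ 2) ^ s := fun x => by
    rw [← Real.rpow_natCast_mul (norm_nonneg _)]; norm_num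
  set g := cv W fun x => ‖f x‖ ^ (2 * s) with hg
  have gc : Continuous g := bas.cv1.cont d W _ Fc
  have g0 : ∀ x, 0 ≤ g x := fun x => bas.cv1.nonneg d W _ x F0
  have a1 : ∀ x, ‖f x‖ ^ (2 * s) ≤ C ^ s * g x := fun x => by
    have b1 := hW.up 0 f (Sp_mono (fun ω hω P => by
      rw [LinearMap.zero_apply, sub_zero, gb_apply]
      refine (abs_sum_le_sum_abs _ _).trans (sum_le_sum fun j _ => ?_)
      rw [abs_mul, abs_of_pos (R0 j)]
      exact mul_le_mul_of_nonneg_right (hω j) (abs_nonneg _)) hf) x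
    have b2 := bas.cv1.jpow d W (fun y => ‖f y‖ ^ 2) s x (by fun_prop) (fun _ => by positivity) hs
    have b3 := bas.cv1.nonneg d W (fun y => ‖f y‖ ^ 2) x fun _ => by positivity
    rw [e2, hg]
    simp only [e2]
    refine (Real.rpow_le_rpow (by positivity) b1 (by linarith)).trans ?_
    rw [Real.mul_rpow (by linarith) b3]
    exact mul_le_mul_of_nonneg_left b2 (by positivity)
  have Wc := bas.wr.cont d 0 H H0
  have W0 : ∀ x : TT d, 0 ≤ Wr 0 H x := fun x => (bas.wr.pos d 0 H x H0).le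
  have rH : ∀ j, (R j)⁻¹ ≤ 1 / H := fun j => by rw [one_div]; exact inv_anti₀ H0 (hR j)
  have a2 := box (w := fun z => (9 / H) ^ d * Wr 0 H z) gc g0 (by fun_prop)
    (fun x => mul_nonneg (by positivity) (W0 x)) (fun j => (R j)⁻¹) (fun j => (inv_pos.2 (R0 j)).le)
    (fun j => (rH j).trans ((div_le_one H0).2 hH)) (K := (1 + d) ^ ((2 * d + 2) * d)) (δ := δ)
    (by positivity) hδ (fun x y hy => by
      have b1 := hW.dbl _ Fc F0 (y + x) (-fun j => lft (y j))
      have b2 : pj (fun j => lft (y j)) = y := by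
        funext j; exact AddCircle.coe_equivIco
      rw [bas.cv1.pj_neg, b2, add_neg_cancel_comm, one_mul] at b1
      refine b1.trans (mul_le_mul_of_nonneg_right (pow_le_pow_left₀ (by positivity) ?_ _) (g0 _))
      rw [map_neg_eq_map, gb_apply]
      refine add_le_add_right ((sum_le_card_nsmul _ _ 1 fun j _ => ?_).trans (by simp)) _
      rw [bas.sl0.lft_abs, abs_of_pos (R0 j), ← le_div_iff₀' (R0 j), one_div]
      exact hy j)
    (fun z hz => by
      simp only [Wr, Nat.zero_le, if_true]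
      rw [← Fin.prod_const, ← prod_mul_distrib]
      refine one_le_prod fun j _ => ?_
      have b1 : H * ‖z j‖ ≤ 2 := by
        rw [← le_div_iff₀' H0]
        have := hz j
        have := rH j
        rw [show 2 / H = 1 / H + 1 / H by ring]; linarith
      have b2 : 0 ≤ H * ‖z j‖ := by positivity
      rw [wt, div_mul_div_cancel₀ H0.ne', le_div_iff₀ (by positivity)]
      nlinarith)
  have a3 : ∫ z, g z * Wr 0 H z ≤ 1 * 1 ^ (2 * d) * C * II 0 H fun x => ‖f x‖ ^ (2 * s) :=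
    bas.cv2.w_up d W _ _ (gb R) (2 * d) _ C Fc Wc F0 W0 (by positivity)
      (bas.cv2.dbl_le d _ _ _ _ _ 1 1 le_rfl zero_le_one (fun P => by
        rw [one_mul, bx_apply, gb_apply]
        refine sum_le_sum fun j _ => ?_
        rw [if_pos (Nat.zero_le _), abs_of_pos H0, abs_of_pos (R0 j)]
        exact mul_le_mul_of_nonneg_right (hR j) (abs_nonneg _)) le_rfl W0 (bas.wr.dbl d 0 H H0))
      hW.mom
  simp only [mul_left_comm (g _), integral_const_mul, one_pow, one_mul] at a2 a3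
  have p0 : 0 < ∏ j, (R j)⁻¹ := prod_pos fun j _ => inv_pos.2 (R0 j)
  have m0 : ∀ j, 0 ≤ min δ (R j)⁻¹ := fun j => le_min hδ (inv_pos.2 (R0 j)).le
  have p1 : 0 ≤ ∏ j, 2 * min δ (R j)⁻¹ := prod_nonneg fun j _ => mul_nonneg zero_le_two (m0 j)
  have e3 : (∏ j, 2 * min δ (R j)⁻¹) * (9 / H) ^ d =
      (∏ j, (R j)⁻¹) * (18 ^ d * ∏ j, R j / H * min δ (R j)⁻¹) := by
    rw [← Fin.prod_const, ← Fin.prod_const, ← prod_mul_distrib, ← prod_mul_distrib,
      ← prod_mul_distrib]
    refine prod_congr rfl fun j _ => ?_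
    have := (R0 j).ne'
    field_simp
    ring
  have a4 : ∫ x in Metric.closedBall 0 δ, g x ≤ (1 + d) ^ ((2 * d + 2) * d) *
      ((18 ^ d * ∏ j, R j / H * min δ (R j)⁻¹) * (C * II 0 H fun x => ‖f x‖ ^ (2 * s))) := by
    refine le_of_mul_le_mul_left (a2.trans ?_) p0
    rw [mul_left_comm (∏ j, (R j)⁻¹), ← mul_assoc (∏ j, (R j)⁻¹), ← e3, mul_assoc]
    gcongr
  calc _ ≤ ∫ x in Metric.closedBall 0 δ, C ^ s * g x :=
        integral_mono (cint Fc) ((cint gc).const_mul _) a1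
    _ ≤ _ := by
        rw [integral_const_mul]
        exact (mul_le_mul_of_nonneg_left a4 (by positivity)).trans (le_of_eq (by ring))

end Pool.Agent.Lib.SC17
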