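import Pool.Agent.Lib.SC17.Up

/-! The lower bounds. -/

namespace Pool.Agent.Lib.SC17

open MeasureTheory Filter Finset WC SC MP_4e7873_nt

variable {d : ℕ}

lemma pjc : Continuous (pj : V d → TT d) := bas.cv1.pj_cont d

lemma ion {E : Type} [NormedAddCommGroup E] {u : V d → E} (hu : Continuous u) (b : V d) :
    IntegrableOn u (Set.Icc 0 b) := hu.continuousOn.integrableOn_compact isCompact_Icc

lemma vol_Icc {b : V d} (hb : ∀ j, 0 ≤ b j) : volume.real (Set.Icc 0 b) = ∏ j, b j := by
  rw [Measure.real, Real.volume_Icc_pi_toReal (a := 0) hb]; simp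

lemma lm_eq {s : ℝ} (hs : 0 ≤ s) (δ : ℝ) (ξ : V d) (N : ℕ) : localMean s d δ ξ N =
    ∫ x in Set.Icc (0 : V d) fun _ => δ, ‖S N (pj x + pj ξ)‖ ^ (2 * s) := by
  have hc : Continuous fun x : V d => ‖weylSum d N x‖ ^ (2 * s) :=
    (Real.continuous_rpow_const (by linarith)).comp (continuous_weylSum d N).norm
  rw [localMean, ← setInt_mp (measurePreserving_add_right volume ξ) measurableSet_Icc
    hc.aestronglyMeasurable, Set.preimage_add_const_Icc, sub_self]
  have : (fun j => ξ j + δ) - ξ = fun _ => δ := by funext j; simp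
  rw [this]
  simp only [BR.weyl_eq, ← bas.cv1.pj_add]
  rfl

lemma pow_lower {u : V d → ℝ} (hu : Continuous u) (u0 : ∀ x, 0 ≤ u x) {p lam : ℝ} (hp : 1 ≤ p)
    (hl : 0 < lam) {b : V d} (hb : ∀ j, 0 ≤ b j)
    (h : 2 * lam * ∏ j, b j ≤ ∫ x in Set.Icc 0 b, u x) :
    lam ^ p * ∏ j, b j ≤ ∫ x in Set.Icc 0 b, u x ^ p := by
  have a1 : ∀ x, lam ^ (p - 1) * (u x - lam) ≤ u x ^ p := fun x => by
    rcases le_total lam (u x) with h | h
    · have b1 := Real.rpow_le_rpow hl.le h (by linarith : 0 ≤ p - 1)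
      have b2 : u x ^ p = u x ^ (p - 1) * u x := by
        rw [← Real.rpow_add_one (hl.trans_le h).ne', sub_add_cancel]
      rw [b2]
      exact mul_le_mul b1 (by linarith) (by linarith) (Real.rpow_nonneg (u0 x) _)
    · exact (mul_nonpos_of_nonneg_of_nonpos (by positivity) (by linarith)).trans
        (Real.rpow_nonneg (u0 x) _)
  refine le_trans ?_ (integral_mono (ion (by fun_prop) b)
    (ion ((Real.continuous_rpow_const (by linarith)).comp hu) b) a1)
  rw [integral_const_mul, integral_sub (ion hu b) (ion continuous_const b), setIntegral_const,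
    vol_Icc hb, smul_eq_mul]
  have b2 : lam ^ p = lam ^ (p - 1) * lam := by
    rw [← Real.rpow_add_one hl.ne', sub_add_cancel]
  rw [b2, mul_assoc]
  exact mul_le_mul_of_nonneg_left (by linarith) (by positivity)

lemma S_sum (N : ℕ) (x : TT d) : S N x = ∑ n ∈ range N, ch (mom d ((n : ℤ) + 1)) x := rfl

lemma parseval (hd : 1 ≤ d) (N : ℕ) : ∫ x : TT d, ‖S N x‖ ^ 2 = N := by
  have e : ∀ x : TT d, ((‖S N x‖ ^ 2 : ℝ) : ℂ) = ∑ m ∈ range N, ∑ n ∈ range N,
      ch (mom d ((m : ℤ) + 1) + -mom d ((n : ℤ) + 1)) x := fun x => by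
    rw [Complex.ofReal_pow, ← Complex.mul_conj', S_sum, map_sum, sum_mul_sum]
    simp only [ch_add, ch_neg]
  have h : ((∫ x : TT d, ‖S N x‖ ^ 2 : ℝ) : ℂ) = N := by
    rw [← integral_complex_ofReal, integral_congr_ae (Eventually.of_forall e), integral_finsetSum _ fun m _ => cint (by fun_prop), sum_congr rfl (g := fun _ => (1 : ℂ))]
    · simp
    intro m hm
    rw [integral_finsetSum _ fun n _ => cint (by fun_prop), sum_eq_single_of_mem m hm]
    · rw [integral_ch, if_pos (add_neg_cancel _)]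
    · intro n _ hn
      rw [integral_ch, if_neg]
      intro h
      have := congrFun h ⟨0, hd⟩
      simp only [mom, Pi.add_apply, Pi.neg_apply, Pi.zero_apply, zero_add, pow_one] at this
      omega
  exact_mod_cast h

lemma avg_shift {G : TT d → ℝ} (hG : Continuous G) {b : V d} (hb : ∀ j, 0 ≤ b j) :
    ∃ y : TT d, (∏ j, b j) * ∫ z, G z ≤ ∫ x in Set.Icc 0 b, G (pj x + y) := by
  have hc : Continuous fun p : TT d × V d => G (pj p.2 + p.1) :=
    hG.comp ((pjc.comp continuous_snd).add continuous_fst)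
  have : IsFiniteMeasure (volume.restrict (Set.Icc (0 : V d) b)) :=
    isFiniteMeasure_restrict.2 isCompact_Icc.measure_lt_top.ne
  obtain ⟨K, hK⟩ := isCompact_univ.exists_bound_of_continuousOn hG.continuousOn
  have hi : Integrable (Function.uncurry fun (y : TT d) (x : V d) => G (pj x + y))
      (volume.prod (volume.restrict (Set.Icc (0 : V d) b))) :=
    Integrable.of_bound hc.aestronglyMeasurable K
      (Eventually.of_forall fun p => hK _ (Set.mem_univ _))
  obtain ⟨y, hy⟩ := exists_integral_le hi.integral_prod_left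
  refine ⟨y, le_of_eq_of_le ?_ hy⟩
  have e : ∀ x : V d, ∫ y : TT d, G (pj x + y) = ∫ z, G z := fun x => by
    simp only [add_comm (pj x)]
    exact int_add G _
  refine Eq.trans ?_ (integral_integral_swap hi).symm
  simp only [e]
  rw [setIntegral_const, vol_Icc hb, smul_eq_mul]

/-- the generic size -/
lemma lowA (hd : 1 ≤ d) {s δ : ℝ} (hs : 1 ≤ s) (hδ : 0 ≤ δ) {N : ℕ} (hN : 1 ≤ N) :
    ∃ ξ, ((N : ℝ) / 2) ^ s * δ ^ d ≤ localMean s d δ ξ N := by
  have hc : Continuous fun z : TT d => ‖S N z‖ ^ 2 := by fun_prop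
  obtain ⟨y, hy⟩ := avg_shift hc (b := fun _ => δ) fun _ => hδ
  rw [parseval hd] at hy
  have e2 : pj (fun j => lft (y j)) = y := by funext j; exact AddCircle.coe_equivIco
  refine ⟨fun j => lft (y j), ?_⟩
  have hN0 : (0 : ℝ) < N := by exact_mod_cast hN
  have hc2 : Continuous fun x : V d => ‖S N (pj x + y)‖ ^ 2 :=
    (((continuous_S N).comp (pjc.add continuous_const)).norm).pow 2
  have := pow_lower hc2 (fun _ => sq_nonneg _) hs (half_pos hN0) (fun _ => hδ)
    (le_of_eq_of_le (by ring) hy)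
  rw [lm_eq (by linarith), e2, ← Fin.prod_const]
  refine this.trans (le_of_eq (integral_congr_ae (Eventually.of_forall fun x => ?_)))
  beta_reduce
  rw [← Real.rpow_natCast_mul (norm_nonneg _)]; norm_num

/-- the initial segment of length `L` -/
lemma lowB (hd : 1 ≤ d) {s δ : ℝ} (hs : 1 ≤ s) (hδ : 0 < δ) {N L : ℕ} (hL : 1 ≤ L) (hN : L ≤ N) :
    ∃ ξ, (1 / 16 : ℝ) ^ (2 * s) * (1 / (16 * d)) ^ d * spike s d δ L ≤ localMean s d δ ξ N := by
  have hd0 : (0 : ℝ) < d := by exact_mod_cast hd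
  have hd1 : (1 : ℝ) ≤ d := by exact_mod_cast hd
  have hL0 : (0 : ℝ) < L := by exact_mod_cast hL
  set b : V d := fun j => 1 / (16 * d) * min δ ((L : ℝ) ^ (j.val + 1))⁻¹ with hb
  have b0 : ∀ j, 0 < b j := fun j => mul_pos (by positivity) (lt_min hδ (by positivity))
  have hV := vol_Icc fun j => (b0 j).le
  have V0 : 0 < ∏ j, b j := prod_pos fun j _ => b0 j
  have fin : volume (Set.Icc 0 b) < ⊤ := isCompact_Icc.measure_lt_top
  have Ec : ∀ n : ℕ, Continuous fun x : V d => ch (mom d ((n : ℤ) + 1)) (pj x) := fun n =>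
    (continuous_ch _).comp pjc
  set A : ℕ → ℂ := fun n => ∫ x in Set.Icc 0 b, ch (mom d ((n : ℤ) + 1)) (pj x) with hA
  have a1 : ∀ n ∈ range L, (∏ j, b j) / 2 ≤ ‖A n‖ := fun n hn => by
    have hn' : (n : ℝ) + 1 ≤ L := by exact_mod_cast mem_range.1 hn
    have c1 : ‖∫ x in Set.Icc 0 b, (ch (mom d ((n : ℤ) + 1)) (pj x) - 1)‖ ≤
        1 / 2 * volume.real (Set.Icc 0 b) :=
      norm_setIntegral_le_of_norm_le_const fin fun x hx => by
        refine (WC.norm_ee_sub_one_le _).trans ?_
        have c2 : ‖∑ j, mom d ((n : ℤ) + 1) j • pj x j‖ ≤ ∑ _j : Fin d, 1 / (16 * (d : ℝ)) := by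
          refine (norm_sum_le _ _).trans (sum_le_sum fun j _ => (norm_zsmul_le' _ _).trans ?_)
          have c3 : ‖pj x j‖ ≤ 1 / (16 * d) * ((L : ℝ) ^ (j.val + 1))⁻¹ :=
            (norm_coe_le _).trans ((abs_of_nonneg (hx.1 j)).trans_le ((hx.2 j).trans
              (mul_le_mul_of_nonneg_left (min_le_right _ _) (by positivity))))
          have c4 : |((mom d ((n : ℤ) + 1) j : ℤ) : ℝ)| ≤ (L : ℝ) ^ (j.val + 1) := by
            simp only [mom]
            push_cast
            rw [abs_of_nonneg (by positivity)]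
            gcongr
          refine (mul_le_mul c4 c3 (norm_nonneg _) (by positivity)).trans (le_of_eq ?_)
          field_simp
        have c5 : ∑ _j : Fin d, 1 / (16 * (d : ℝ)) = 1 / 16 := by
          rw [sum_const, card_univ, Fintype.card_fin, nsmul_eq_mul]; field_simp
        have := Real.pi_lt_four
        have := Real.pi_pos
        nlinarith [norm_nonneg (∑ j, mom d ((n : ℤ) + 1) j • pj x j)]
    rw [integral_sub (ion (Ec n) b) (ion continuous_const b), setIntegral_const, hV,
      norm_sub_rev] at c1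
    have c6 := norm_sub_norm_le ((∏ j, b j) • (1 : ℂ)) (A n)
    rw [norm_smul, norm_one, mul_one, Real.norm_of_nonneg V0.le] at c6
    linarith
  have a2 : ∀ y : V d, ∫ x in Set.Icc 0 b, S N (pj x + pj (-y)) =
      ∑ n ∈ range N, A n * (starRingEnd ℂ) (ch (mom d ((n : ℤ) + 1)) (pj y)) := fun y => by
    simp only [S_sum, ch_add_pt]
    rw [integral_finsetSum _ fun n _ => by exact ion ((Ec n).mul continuous_const) b]
    refine sum_congr rfl fun n _ => ?_
    rw [integral_mul_const, bas.cv1.pj_neg, ← ch_neg]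
    congr 1
    simp [ch]
  have a3 : ∫ y in Set.Icc 0 b, ∑ n ∈ range N,
      A n * (starRingEnd ℂ) (ch (mom d ((n : ℤ) + 1)) (pj y)) =
        ((∑ n ∈ range N, ‖A n‖ ^ 2 : ℝ) : ℂ) := by
    rw [integral_finsetSum _ fun n _ => by
      exact ion (continuous_const.mul (Complex.continuous_conj.comp (Ec n))) b]
    push_cast
    refine sum_congr rfl fun n _ => ?_
    rw [integral_const_mul, integral_conj, Complex.mul_conj']
  have a4 : L * ((∏ j, b j) / 2) ^ 2 ≤ ∑ n ∈ range N, ‖A n‖ ^ 2 := by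
    refine le_trans ?_ (sum_le_sum_of_subset_of_nonneg (range_subset_range.2 hN)
      fun _ _ _ => sq_nonneg _)
    simpa using card_nsmul_le_sum (range L) (fun n => ‖A n‖ ^ 2) (((∏ j, b j) / 2) ^ 2)
      fun n hn => pow_le_pow_left₀ (by positivity) (a1 n hn) 2
  obtain ⟨y, hy⟩ : ∃ y : V d,
      L * (∏ j, b j) / 8 ≤ ‖∫ x in Set.Icc 0 b, S N (pj x + pj (-y))‖ := by
    by_contra hc
    simp only [not_exists, not_le, a2] at hc
    have c1 := norm_setIntegral_le_of_norm_le_const fin fun y (_ : y ∈ Set.Icc 0 b) => (hc y).le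
    rw [a3, hV, Complex.norm_real, Real.norm_of_nonneg (sum_nonneg fun _ _ => sq_nonneg _)] at c1
    have : 0 < L * (∏ j, b j) ^ 2 := by positivity
    nlinarith
  have Sc : Continuous fun x : V d => ‖S N (pj x + pj (-y))‖ :=
    ((continuous_S N).comp (pjc.add continuous_const)).norm
  have a5 := pow_lower Sc (fun _ => norm_nonneg _) (p := 2 * s) (lam := L / 16) (by linarith)
    (by positivity) (fun j => (b0 j).le)
    (le_trans (le_of_eq (by ring)) (hy.trans (norm_integral_le_integral_norm _)))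
  refine ⟨-y, le_trans (le_of_eq ?_) (a5.trans ?_)⟩
  · rw [hb, prod_mul_distrib, Fin.prod_const, spike, div_eq_mul_one_div (L : ℝ),
      Real.mul_rpow hL0.le (by norm_num)]
    ring
  · rw [lm_eq (by linarith)]
    refine setIntegral_mono_set (ion ((Real.continuous_rpow_const (by linarith)).comp Sc) _)
      (Eventually.of_forall fun _ => by positivity)
      (Set.Icc_subset_Icc_right fun j => ?_).eventuallyLE
    refine (mul_le_mul_of_nonneg_left (min_le_left _ _) (by positivity)).trans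
      (mul_le_of_le_one_left hδ.le ?_)
    rw [div_le_one (by positivity)]; linarith

end Pool.Agent.Lib.SC17
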