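import Pool.Agent.Lib.SC17.Up

/-! The mean square and the range `d / 2 ≤ s ≤ 4`. -/

namespace Pool.Agent.Lib.SC17

open MeasureTheory Filter Finset WC SC

lemma pow_gap {a b M : ℝ} (k : ℕ) (hM : 0 ≤ M) (ha : M ≤ a) (hb : M ≤ b) :
    |a - b| * M ^ k ≤ |a ^ (k + 1) - b ^ (k + 1)| := by
  wlog h : b ≤ a
  · rw [abs_sub_comm, abs_sub_comm (a ^ _)]; exact this k hM hb ha (not_le.1 h).le
  have h1 : M ^ k ≤ b ^ k := pow_le_pow_left₀ hM hb k
  have h2 : b ^ k ≤ a ^ k := pow_le_pow_left₀ (hM.trans hb) h k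
  refine le_trans ?_ (le_abs_self _)
  rw [abs_of_nonneg (by linarith), pow_succ, pow_succ]
  nlinarith [mul_le_mul_of_nonneg_left h1 (sub_nonneg.2 h),
    mul_le_mul_of_nonneg_left h2 (hM.trans ha)]

lemma l2 (k : ℕ) : ∃ C : ℝ, 1 ≤ C ∧ ∀ (M : ℕ) (a : ℕ → ℂ) (δ : ℝ) (ξ : TT (k + 1)), 1 ≤ M →
    (∀ y, ‖a y‖ ≤ 1) → 0 < δ → δ ≤ 1 →
      ∫ x in Metric.closedBall ξ δ, ‖fa (k + 1) a M M x‖ ^ 2 ≤
        C * (δ ^ (k + 1) * (M * (1 + (δ * M ^ k)⁻¹))) := by
  obtain ⟨C, hC, hm⟩ := blk_SLM bas 1 4 1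
  have c1 : 1 ≤ C ^ (2 * (k + 1)) := one_le_pow₀ hC
  have c2 : (1 : ℝ) ≤ 32 ^ (k + 1) := one_le_pow₀ (by norm_num)
  refine ⟨32 ^ (k + 1) * C ^ (2 * (k + 1)) * 8, by nlinarith [one_le_mul_of_one_le_of_one_le c2 c1],
    fun M a δ ξ hM ha h0 h1 => ?_⟩
  have M1 : (1 : ℝ) ≤ M := by exact_mod_cast hM
  obtain ⟨H, H1, H2⟩ : ∃ H : ℕ, 1 / δ ≤ H ∧ (H : ℝ) ≤ 2 / δ := by
    have : 1 ≤ 1 / δ := (one_le_div h0).2 h1
    exact ⟨⌈1 / δ⌉₊, Nat.le_ceil _, (Nat.ceil_lt_add_one (by positivity)).le.trans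
      (by rw [show 2 / δ = 1 / δ + 1 / δ by ring]; linarith)⟩
  have H3 : (1 : ℝ) ≤ H := ((one_le_div h0).2 h1).trans H1
  have H0 : (0 : ℝ) < H := by linarith
  set ψ : Fin 1 → V (k + 1) := fun _ => Pi.single (Fin.last k) (H : ℝ)⁻¹ with hψ
  have hq : ∀ i, IsQ (ψ i) := fun i j => by
    by_cases h : j = Fin.last k
    · exact ⟨(H : ℚ)⁻¹, by simp [hψ, h]⟩
    · exact ⟨0, by simp [hψ, h]⟩
  have := bas.sl0.probK _ 1 4 ψ (by norm_num)
  have mo := ((hm _ ψ (bx 0 H) 1 le_rfl fun i => by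
    rw [bx_apply, sum_eq_single (Fin.last k)]
    · simp [hψ, H0.ne']
    · intro j _ hj; simp [hψ, hj]
    · simp).1 (by norm_num)).1
  rw [one_pow, mul_one] at mo
  have hO : ((2 * ⌊2 * H / (M : ℝ) ^ k⌋₊ + 1 : ℕ) : ℝ) ≤ 8 * (1 + (δ * M ^ k)⁻¹) := by
    have b1 := Nat.floor_le (show 0 ≤ 2 * H / (M : ℝ) ^ k by positivity)
    have b2 : 2 * H / (M : ℝ) ^ k ≤ 4 * (δ * M ^ k)⁻¹ := by
      rw [mul_inv, ← mul_assoc, div_eq_mul_inv]
      refine mul_le_mul_of_nonneg_right ?_ (by positivity)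
      rw [div_eq_mul_inv] at H2; linarith
    push_cast; linarith
  have key : ∀ (a : ℕ → ℂ), (∀ y, ‖a y‖ ≤ 1) → ∀ x,
      cv (sK ψ 4) (fun y => ‖fa (k + 1) a M M y‖ ^ 2) x ≤ 8 * (1 + (δ * M ^ k)⁻¹) * M := by
    intro a ha x
    have b1 := blk_SLO bas _ 1 2 ψ (by norm_num) hq ℕ (Ico M (M + M))
      (fun m => {mom (k + 1) (m : ℤ)}) (fun m y => a m * ch (mom (k + 1) (m : ℤ)) y)
      (2 * ⌊2 * H / (M : ℝ) ^ k⌋₊ + 1)
      (fun m _ => Submodule.smul_mem _ (a m) (ch_mem (Set.mem_singleton _)))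
      (fun m hm t ht h => by
        refine (card_le_card (t := Icc (m - ⌊2 * H / (M : ℝ) ^ k⌋₊) (m + ⌊2 * H / (M : ℝ) ^ k⌋₊))
          fun b hb => ?_).trans (by rw [Nat.card_Icc]; omega)
        obtain ⟨_, rfl, _, rfl, h⟩ := h b hb
        have e : dot (mom (k + 1) (m : ℤ) - mom (k + 1) (b : ℤ)) (ψ 0) =
            ((m : ℝ) ^ (k + 1) - (b : ℝ) ^ (k + 1)) / H := by
          rw [dot, sum_eq_single (Fin.last k)]
          · simp [hψ, mom, div_eq_mul_inv]
          · intro j _ hj; simp [hψ, hj]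
          · simp
        have h2 := h 0
        rw [e, abs_div, abs_of_pos H0, div_le_iff₀ H0] at h2
        have h3 := (pow_gap k (M := M) (a := m) (b := b) (by linarith)
          (by exact_mod_cast (mem_Ico.1 hm).1) (by exact_mod_cast (mem_Ico.1 (ht hb)).1)).trans h2
        rw [← le_div_iff₀ (by positivity), abs_le] at h3
        have h4 := Nat.lt_floor_add_one (2 * H / (M : ℝ) ^ k)
        push_cast at h3
        have h5 : m < b + ⌊2 * H / (M : ℝ) ^ k⌋₊ + 1 := by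
          have : (m : ℝ) < b + ⌊2 * H / (M : ℝ) ^ k⌋₊ + 1 := by linarith [h3.2]
          exact_mod_cast this
        have h6 : b < m + ⌊2 * H / (M : ℝ) ^ k⌋₊ + 1 := by
          have : (b : ℝ) < m + ⌊2 * H / (M : ℝ) ^ k⌋₊ + 1 := by linarith [h3.1]
          exact_mod_cast this
        rw [mem_Icc]; omega) x
    refine b1.trans (mul_le_mul hO ((sum_le_card_nsmul _ _ 1 fun m _ => ?_).trans (by simp))
      (sum_nonneg fun m _ => bas.cv1.nonneg _ _ _ _ fun _ => sq_nonneg _) (by positivity))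
    refine (bas.cv1.mono _ (sK ψ 4) _ (fun _ => 1) x (by fun_prop) continuous_const
      fun y => ?_).trans (bas.cv1.const _ _ 1 x).le
    rw [norm_mul, norm_ch, mul_one]
    exact pow_le_one₀ (norm_nonneg _) (ha m)
  have Wc := bas.wr.cont (k + 1) 0 H H0
  have W0 : ∀ x : TT (k + 1), 0 ≤ Wr 0 H x := fun x => (bas.wr.pos _ 0 H x H0).le
  have h2 := MAIN.cover (F := fun x => ‖fa (k + 1) a M M x‖ ^ 2)
    (B := 1 * C ^ (2 * (k + 1)) * (8 * (1 + (δ * M ^ k)⁻¹) * M * 2 ^ (k + 1)))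
    ((bas.wr.fa_cont _ a M M).norm.pow 2) (fun _ => sq_nonneg _) H3 h0.le (fun y => by
      have Fc := (bas.wr.fa_cont (k + 1) (fun m => a m * ch (mom (k + 1) (m : ℕ)) y) M M).norm.pow 2
      have b1 := bas.cv2.w_lo _ (sK ψ 4) _ _ (bx 0 H) (2 * (k + 1)) 1 C Fc Wc
        (fun _ => sq_nonneg _) W0 zero_le_one (bas.wr.dbl _ 0 H H0) mo
      refine le_trans (le_of_eq ?_) (b1.trans (mul_le_mul_of_nonneg_left ?_ (by positivity)))
      · simp only [Wr, Nat.zero_le, if_true, fa_shift, Pi.pow_apply]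
      · refine le_trans (integral_mono (cint ((bas.cv1.cont _ _ _ Fc).mul Wc))
          ((cint Wc).const_mul (8 * (1 + (δ * M ^ k)⁻¹) * M)) fun x =>
            mul_le_mul_of_nonneg_right (key _ (fun m => by simpa using ha m) x) (W0 x)) ?_
        rw [integral_const_mul]
        exact mul_le_mul_of_nonneg_left (bas.wr.mass _ 0 H H0) (by positivity)) ξ
  have h3 : 1 / (H : ℝ) ≤ δ := by rwa [div_le_comm₀ h0 H0] at H1
  refine h2.trans ((mul_le_mul_of_nonneg_right (pow_le_pow_left₀ (by positivity)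
    (show _ ≤ 16 * δ by linarith) _) (by positivity)).trans (le_of_eq ?_))
  rw [show (32 : ℝ) = 16 * 2 by norm_num, mul_pow, mul_pow]; ring

lemma spike_ge (k : ℕ) (s : ℝ) {δ : ℝ} (h0 : 0 < δ) {L : ℕ} (hL : 1 ≤ L)
    (h : (L : ℝ) ^ k * δ ≤ 1) : spike s (k + 1) δ L =
      (L : ℝ) ^ (2 * s) * (δ ^ k * min δ ((L : ℝ) ^ (k + 1))⁻¹) := by
  have b1 : (1 : ℝ) ≤ L := by exact_mod_cast hL
  rw [spike, Fin.prod_univ_castSucc, ← Fin.prod_const k δ]
  congr 2
  refine prod_congr rfl fun j _ => min_eq_left ?_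
  rw [← one_div, le_div_iff₀' (by positivity)]
  exact (mul_le_mul_of_nonneg_right (pow_le_pow_right₀ b1 j.2) h0.le).trans h

lemma split3 {t lam a s b : ℝ} (ht : 0 ≤ t) (hl : 0 < lam) (ha : 0 < a) (h1 : a ≤ s) (h2 : s ≤ b) :
    t ^ s ≤ lam ^ (s - a) * t ^ a + lam ^ (s - b) * t ^ b := by
  rcases le_total t lam with h | h
  · refine le_trans ?_ (le_add_of_nonneg_right (by positivity))
    rw [show s = (s - a) + a by ring, Real.rpow_add' ht (by linarith), add_sub_cancel_right]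
    exact mul_le_mul_of_nonneg_right (Real.rpow_le_rpow ht h (by linarith)) (by positivity)
  · refine le_trans ?_ (le_add_of_nonneg_left (by positivity))
    rw [show s = (s - b) + b by ring, Real.rpow_add (by linarith), add_sub_cancel_right]
    exact mul_le_mul_of_nonneg_right (Real.rpow_le_rpow_of_nonpos hl h (by linarith))
      (by positivity)

lemma pc_mid {d : ℕ} {s ε : ℝ} (hd : 5 ≤ d) (hs : (d : ℝ) ≤ 2 * s) (h4 : s ≤ 4) (hε : 0 < ε) :
    Pc d s ε := by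
  classical
  obtain ⟨k, rfl⟩ : ∃ k, d = k + 1 + 1 := ⟨d - 2, by omega⟩
  have k3 : (3 : ℝ) ≤ k := by exact_mod_cast (by omega : 3 ≤ k)
  push_cast at hs
  obtain ⟨C, hC, h⟩ := l2 (k + 1)
  obtain ⟨C', hC', h'⟩ := piece (d := k + 1 + 1) (by omega) le_rfl hε
  have c2 : (1 : ℝ) ≤ 2 ^ (k + 1 + 1) := one_le_pow₀ one_le_two
  refine ⟨2 ^ (k + 1 + 1) + 256 * (C + C'), by linarith, fun N n a δ ξ hn ha h0 h1 => ?_⟩
  have h2 := h (2 ^ n) a δ ξ Nat.one_le_two_pow ha h0 h1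
  have h3 := h' n a δ ξ ha h0.le h1
  have e0 : (2 : ℝ) ^ n = ((2 ^ n : ℕ) : ℝ) := by push_cast; rfl
  have fl := fun x => bas.wr.fa_le (k + 1 + 1) a (2 ^ n) (2 ^ n) x ha
  have fc := (bas.wr.fa_cont (k + 1 + 1) a (2 ^ n) (2 ^ n)).norm
  have hM := Nat.one_le_two_pow (n := n)
  rw [e0] at h3
  generalize fa (k + 1 + 1) a (2 ^ n) (2 ^ n) = f at h2 h3 fl fc
  generalize 2 ^ n = M at hn h2 h3 fl hM
  have M1 : (1 : ℝ) ≤ M := by exact_mod_cast hM
  have M0 : (0 : ℝ) < M := by linarith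
  have MN : (M : ℝ) ≤ N := by exact_mod_cast hn
  have hNe : 1 ≤ (N : ℝ) ^ ε := Real.one_le_rpow (M1.trans MN) hε.le
  have o0 := order_nonneg (d := k + 1 + 1) s h0.le (hM.trans hn)
  have Fc : ∀ p : ℝ, 0 ≤ p → Continuous fun x => ‖f x‖ ^ p := fun p hp =>
    (Real.continuous_rpow_const hp).comp fc
  rcases le_or_gt ((M : ℝ) ^ (k + 1) * δ) 1 with hu | hu
  · have a0 : spike s (k + 1 + 1) δ M ≤ order s (k + 1 + 1) δ N :=
      (spike_le s δ hM hn).trans (le_add_of_nonneg_left (by positivity))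
    have a1 : ∫ x in Metric.closedBall ξ δ, ‖f x‖ ^ 2 ≤ (2 ^ (k + 1 + 1) + 2 * C) *
        ((M : ℝ) ^ 2 * (δ ^ (k + 1) * min δ ((M : ℝ) ^ (k + 1 + 1))⁻¹)) := by
      rcases le_total δ ((M : ℝ) ^ (k + 1 + 1))⁻¹ with hc | hc
      · rw [min_eq_left hc]
        refine (integral_mono (cint (fc.pow 2)) (integrable_const ((M : ℝ) ^ 2))
          fun x => pow_le_pow_left₀ (norm_nonneg _) (fl x) 2).trans ?_
        rw [setIntegral_const, smul_eq_mul]
        refine (mul_le_mul_of_nonneg_right (vol_ball ξ h0.le) (by positivity)).trans ?_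
        rw [mul_pow, ← pow_succ δ, mul_comm ((M : ℝ) ^ 2), mul_assoc]
        exact mul_le_mul_of_nonneg_right (by linarith) (by positivity)
      · rw [min_eq_right hc]
        have b1 : 1 ≤ (δ * (M : ℝ) ^ (k + 1))⁻¹ := by
          rw [mul_comm]; exact (one_le_inv₀ (by positivity)).2 hu
        refine h2.trans (le_trans (b := 2 * C * (δ ^ (k + 1 + 1) * (M * (δ * M ^ (k + 1))⁻¹))) ?_ ?_)
        · rw [mul_comm 2 C, mul_assoc, ← mul_assoc 2, mul_comm 2, mul_assoc, ← mul_assoc 2,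
            mul_comm 2, mul_assoc]
          gcongr; linarith
        · refine mul_le_mul (by linarith) (le_of_eq ?_) (by positivity) (by positivity)
          field_simp; ring
    calc _ ≤ ∫ x in Metric.closedBall ξ δ, (M : ℝ) ^ (2 * s - 2) * ‖f x‖ ^ 2 := by
          refine integral_mono (cint (Fc _ (by linarith))) ((cint (fc.pow 2)).const_mul _)
            fun x => ?_
          beta_reduce
          rw [show 2 * s = (2 * s - 2) + 2 by ring, Real.rpow_add' (norm_nonneg _) (by linarith),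
            add_sub_cancel_right, Real.rpow_two]
          exact mul_le_mul_of_nonneg_right
            (Real.rpow_le_rpow (norm_nonneg _) (fl x) (by linarith)) (by positivity)
      _ ≤ (2 ^ (k + 1 + 1) + 2 * C) * 1 * spike s (k + 1 + 1) δ M := by
          rw [integral_const_mul, spike_ge _ s h0 hM hu]
          refine (mul_le_mul_of_nonneg_left a1 (by positivity)).trans (le_of_eq ?_)
          rw [show 2 * s = (2 * s - 2) + 2 by ring, Real.rpow_add M0, add_sub_cancel_right,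
            Real.rpow_two]
          ring
      _ ≤ _ := mul_le_mul (mul_le_mul (by linarith) hNe zero_le_one (by linarith)) a0
          (spike_nonneg s h0.le M) (by positivity)
  have a1 : 1 ≤ Nat.findGreatest (fun L : ℕ => (L : ℝ) ^ (k + 1) * δ ≤ 1) M :=
    Nat.le_findGreatest hM (by simpa using h1)
  have a2 := Nat.findGreatest_le (P := fun L : ℕ => (L : ℝ) ^ (k + 1) * δ ≤ 1) M
  have a3 := Nat.findGreatest_spec (P := fun L : ℕ => (L : ℝ) ^ (k + 1) * δ ≤ 1) hM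
    (by simpa using h1)
  have a4 := fun j => Nat.findGreatest_is_greatest (P := fun L : ℕ => (L : ℝ) ^ (k + 1) * δ ≤ 1)
    (n := M) (k := j)
  generalize Nat.findGreatest (fun L : ℕ => (L : ℝ) ^ (k + 1) * δ ≤ 1) M = L at a1 a2 a3 a4
  have a5 : L + 1 ≤ M := by
    rcases a2.eq_or_lt with rfl | h
    · exact absurd a3 hu.not_ge
    · exact h
  have a6 := not_le.1 (a4 (L + 1) (by omega) a5)
  have L1 : (1 : ℝ) ≤ L := by exact_mod_cast a1
  have L2 : (L : ℝ) + 1 ≤ M := by exact_mod_cast a5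
  push_cast at a6
  have b1 : δ ^ (k + 1 + 1) * (L : ℝ) ^ (2 * s - 1) ≤ spike s (k + 1 + 1) δ L := by
    rw [spike_ge _ s h0 a1 a3, Real.rpow_sub_one (by linarith), pow_succ δ, mul_comm _ (_ / _),
      div_mul_eq_mul_div, mul_div_assoc, mul_div_assoc]
    gcongr
    refine le_min (div_le_self h0.le L1) ?_
    rw [pow_succ (L : ℝ), mul_inv, div_eq_mul_inv]
    gcongr
    rwa [← one_div, le_div_iff₀' (by positivity)]
  obtain ⟨y, y0, y1, hy⟩ : ∃ y : ℝ, 0 < y ∧ y ≤ 1 ∧ M * y = L + 1 :=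
    ⟨(L + 1) / M, by positivity, (div_le_one M0).2 L2, by field_simp⟩
  obtain ⟨lam, m0, m1, m2, m3⟩ : ∃ lam : ℝ, 0 < lam ∧ (M : ℝ) ^ 3 ≤ lam ^ 6 ∧
      (M : ℝ) ^ 6 * y ^ (2 * (k + 1)) ≤ lam ^ 6 ∧
      lam ^ (2 * s - 2) * M ≤ (M : ℝ) ^ s + (L + 1 : ℝ) ^ (2 * s - 1) := by
    have e1 : (M : ℝ) ^ 3 = √M ^ 6 := by
      rw [show 6 = 2 * 3 from rfl, pow_mul, Real.sq_sqrt M0.le]
    have e2 : (M : ℝ) ^ 6 * y ^ (2 * (k + 1)) = (M * y ^ (((k : ℝ) + 1) / 3)) ^ 6 := by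
      rw [mul_pow, ← Real.rpow_mul_natCast y0.le, ← Real.rpow_natCast y]
      congr 2; push_cast; ring
    rcases le_total (M * y ^ (((k : ℝ) + 1) / 3)) √M with h | h
    · refine ⟨√M, by positivity, e1.le, e2 ▸ pow_le_pow_left₀ (by positivity) h 6,
        le_trans (le_of_eq ?_) (le_add_of_nonneg_right (by positivity))⟩
      rw [Real.sqrt_eq_rpow, ← Real.rpow_mul M0.le, ← Real.rpow_add_one M0.ne']
      congr 1; ring
    · refine ⟨_, by positivity, e1 ▸ pow_le_pow_left₀ (by positivity) h 6, e2.le,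
        le_trans ?_ (le_add_of_nonneg_left (by positivity))⟩
      rw [← hy, Real.mul_rpow M0.le (by positivity), Real.mul_rpow M0.le y0.le,
        ← Real.rpow_mul y0.le, mul_right_comm, ← Real.rpow_add_one M0.ne',
        show 2 * s - 2 + 1 = 2 * s - 1 by ring]
      exact mul_le_mul_of_nonneg_left (Real.rpow_le_rpow_of_exponent_ge y0 y1 (by nlinarith))
        (by positivity)
  have b2 : spike 4 (k + 1 + 1) δ M ≤ δ ^ (k + 1 + 1) * (lam ^ 6 * M) := by
    have m0' : ∀ j : ℕ, 0 ≤ min δ ((M : ℝ) ^ (j + 1))⁻¹ := fun j => le_min h0.le (by positivity)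
    have c1 : ((M : ℝ) ^ (k + 1))⁻¹ ≤ δ * y ^ (k + 1) := by
      rw [inv_le_iff_one_le_mul₀' (by positivity), mul_left_comm, ← mul_pow, hy, mul_comm]
      exact a6.le
    have c3 : ∏ j : Fin (k + 1 + 1), min δ ((M : ℝ) ^ (j.val + 1))⁻¹ ≤
        δ ^ k * (δ * y ^ (k + 1)) * (δ * y ^ (k + 1) * (M : ℝ)⁻¹) := by
      rw [Fin.prod_univ_castSucc, Fin.prod_univ_castSucc, ← Fin.prod_const k δ]
      refine mul_le_mul (mul_le_mul (prod_le_prod (fun j _ => m0' _) fun j _ => min_le_left _ _)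
        ((min_le_right _ _).trans c1) (m0' _) (prod_nonneg fun _ _ => h0.le))
        ((min_le_right _ _).trans ?_) (m0' _)
        (mul_nonneg (prod_nonneg fun _ _ => h0.le) (by positivity))
      rw [Fin.val_last, pow_succ (M : ℝ) (k + 1), mul_inv]
      gcongr
    rw [spike, show (2 : ℝ) * 4 = (8 : ℕ) by norm_num, Real.rpow_natCast]
    refine (mul_le_mul_of_nonneg_left c3 (by positivity)).trans (le_trans (le_of_eq ?_)
      (mul_le_mul_of_nonneg_left (mul_le_mul_of_nonneg_right m2 M0.le) (by positivity)))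
    field_simp; ring
  have b3 : δ ^ (k + 1 + 1) * (M : ℝ) ^ (4 : ℝ) ≤ δ ^ (k + 1 + 1) * (lam ^ 6 * M) := by
    rw [show (4 : ℝ) = (4 : ℕ) by norm_num, Real.rpow_natCast, pow_succ (M : ℝ) 3]
    gcongr
  have b4 : (δ * (M : ℝ) ^ (k + 1))⁻¹ ≤ 1 := by
    rw [mul_comm]; exact inv_le_one_of_one_le₀ hu.le
  have b5 : lam ^ (2 * s - 2 * 4) * lam ^ 6 = lam ^ (2 * s - 2) := by
    rw [← Real.rpow_natCast, ← Real.rpow_add m0]; congr 1; push_cast; ring
  have b6 : δ ^ (k + 1 + 1) * (lam ^ (2 * s - 2) * M) ≤ 128 * order s (k + 1 + 1) δ N := by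
    have c1 : (L + 1 : ℝ) ^ (2 * s - 1) ≤ 128 * (L : ℝ) ^ (2 * s - 1) := by
      refine (Real.rpow_le_rpow (by positivity) (show _ ≤ 2 * (L : ℝ) by linarith)
        (by linarith)).trans ?_
      rw [Real.mul_rpow zero_le_two (by linarith)]
      refine mul_le_mul_of_nonneg_right ((Real.rpow_le_rpow_of_exponent_le one_le_two
        (show _ ≤ ((7 : ℕ) : ℝ) by push_cast; linarith)).trans ?_) (by positivity)
      rw [Real.rpow_natCast]; norm_num
    have c2 : (M : ℝ) ^ s ≤ 128 * (N : ℝ) ^ s :=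
      (Real.rpow_le_rpow M0.le MN (by linarith)).trans
        (le_mul_of_one_le_left (by positivity) (by norm_num))
    have c3 := b1.trans (spike_le s δ a1 (a2.trans hn))
    have c4 := mul_le_mul_of_nonneg_left (m3.trans (add_le_add c2 c1)) (pow_pos h0 (k + 1 + 1)).le
    rw [order]; linarith
  have hMe : (M : ℝ) ^ ε ≤ (N : ℝ) ^ ε := Real.rpow_le_rpow M0.le MN hε.le
  calc _ ≤ ∫ x in Metric.closedBall ξ δ, (lam ^ (2 * s - 2) * ‖f x‖ ^ 2 +
        lam ^ (2 * s - 2 * 4) * ‖f x‖ ^ (2 * (4 : ℝ))) := by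
        refine integral_mono (cint (Fc _ (by linarith))) (cint ((continuous_const.mul (fc.pow 2)).add
          (continuous_const.mul (Fc _ (by norm_num))))) fun x => ?_
        have := split3 (norm_nonneg (f x)) m0 two_pos (show 2 ≤ 2 * s by linarith)
          (show 2 * s ≤ 2 * 4 by linarith)
        rwa [Real.rpow_two] at this
    _ ≤ lam ^ (2 * s - 2) * (C * (δ ^ (k + 1 + 1) * (M * (1 + 1)))) + lam ^ (2 * s - 2 * 4) *
        (C' * (N : ℝ) ^ ε * (δ ^ (k + 1 + 1) * (lam ^ 6 * M) + δ ^ (k + 1 + 1) * (lam ^ 6 * M))) := by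
        have f2 : Continuous fun x => ‖f x‖ ^ 2 := fc.pow 2
        rw [integral_add ((cint f2).const_mul _) ((cint (Fc _ (by norm_num))).const_mul _),
          integral_const_mul, integral_const_mul]
        have := spike_nonneg (d := k + 1 + 1) 4 h0.le M
        exact add_le_add (mul_le_mul_of_nonneg_left (h2.trans (by gcongr)) (by positivity))
          (mul_le_mul_of_nonneg_left (h3.trans (by gcongr)) (by positivity))
    _ = 2 * (C * 1 + C' * (N : ℝ) ^ ε) * (δ ^ (k + 1 + 1) * (lam ^ (2 * s - 2) * M)) := by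
        rw [← b5]; ring
    _ ≤ 2 * (C * (N : ℝ) ^ ε + C' * (N : ℝ) ^ ε) * (128 * order s (k + 1 + 1) δ N) := by gcongr
    _ ≤ _ := by
        have : 0 ≤ 2 ^ (k + 1 + 1) * (N : ℝ) ^ ε * order s (k + 1 + 1) δ N := by positivity
        nlinarith

end Pool.Agent.Lib.SC17
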