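import Pool.Agent.Lib.SC17.Low
import Pool.Agent.Lib.SC17.Mid

/-! The order of magnitude of the largest local mean value. -/

namespace Pool.Agent.Lib.SC17

open MeasureTheory Filter Finset WC SC MP_4e7873_nt

variable {d : ℕ}

/-- for `2 t ≤ d` the largest spike is the flat one -/
lemma flat (hd : 1 ≤ d) {δ : ℝ} (h0 : 0 < δ) (h1 : δ ≤ 1) {N : ℕ} (hN : 1 ≤ N) :
    ∃ lam : ℝ, 0 < lam ∧ ∀ t : ℝ, 0 ≤ t → 2 * t ≤ d → δ ^ d * lam ^ (2 * t) ≤ order t d δ N ∧
      order t d δ N ≤ (1 + 2 ^ d) * (δ ^ d * lam ^ (2 * t)) := by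
  classical
  have a1 : 1 ≤ Nat.findGreatest (fun L : ℕ => (L : ℝ) ^ d * δ ≤ 1) N :=
    Nat.le_findGreatest hN (by simpa using h1)
  have a2 := Nat.findGreatest_le (P := fun L : ℕ => (L : ℝ) ^ d * δ ≤ 1) N
  have a3 := Nat.findGreatest_spec (P := fun L : ℕ => (L : ℝ) ^ d * δ ≤ 1) hN (by simpa using h1)
  have a4 := fun k => Nat.findGreatest_is_greatest (P := fun L : ℕ => (L : ℝ) ^ d * δ ≤ 1)
    (n := N) (k := k)
  generalize Nat.findGreatest (fun L : ℕ => (L : ℝ) ^ d * δ ≤ 1) N = L₀ at a1 a2 a3 a4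
  have b1 : (1 : ℝ) ≤ L₀ := by exact_mod_cast a1
  have n1 : (1 : ℝ) ≤ N := by exact_mod_cast hN
  have e1 : ∀ t : ℝ, √N ^ (2 * t) = (N : ℝ) ^ t := fun t => by
    rw [Real.sqrt_eq_rpow, ← Real.rpow_mul (by linarith)]; congr 1; ring
  refine ⟨max √N L₀, lt_max_of_lt_right (by linarith), fun t t0 td => ⟨?_, ?_⟩⟩
  · have e : spike t d δ L₀ = (L₀ : ℝ) ^ (2 * t) * δ ^ d := by
      rw [spike, ← Fin.prod_const]
      congr 1
      refine prod_congr rfl fun j _ => min_eq_left ?_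
      rw [← one_div, le_div_iff₀' (by positivity)]
      exact (mul_le_mul_of_nonneg_right (pow_le_pow_right₀ b1 j.2) h0.le).trans a3
    have c1 := spike_le (d := d) t δ a1 a2
    have c2 := (spike_nonneg (d := d) t h0.le L₀).trans c1
    rw [order]
    rcases le_total √N L₀ with h | h
    · rw [max_eq_right h, mul_comm, ← e]
      exact c1.trans (le_add_of_nonneg_left (by positivity))
    · rw [max_eq_left h, e1]
      exact le_add_of_nonneg_right c2
  have c0 : (2 * L₀ : ℝ) ^ (2 * t) ≤ 2 ^ d * max √N L₀ ^ (2 * t) := by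
    rw [Real.mul_rpow zero_le_two (by linarith), ← Real.rpow_natCast]
    exact mul_le_mul (Real.rpow_le_rpow_of_exponent_le one_le_two td)
      (Real.rpow_le_rpow (by linarith) (le_max_right _ _) (by linarith)) (by positivity)
      (by positivity)
  rw [order, add_mul, one_mul, ← e1, mul_left_comm]
  refine add_le_add (mul_le_mul_of_nonneg_left (Real.rpow_le_rpow (by positivity)
    (le_max_left _ _) (by linarith)) (by positivity))
    (le_trans ?_ (mul_le_mul_of_nonneg_left c0 (by positivity)))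
  have : Nonempty (Set.Icc 1 N) := ⟨⟨1, le_rfl, hN⟩⟩
  refine ciSup_le fun ⟨L, l1, l2⟩ => ?_
  have c1 : (1 : ℝ) ≤ L := by exact_mod_cast l1
  rw [spike, mul_comm]
  have m0 : ∀ j : Fin d, 0 ≤ min δ ((L : ℝ) ^ (j.val + 1))⁻¹ := fun j =>
    le_min h0.le (by positivity)
  rcases le_or_gt L L₀ with h | h
  · have : (L : ℝ) ≤ L₀ := by exact_mod_cast h
    refine mul_le_mul ?_ (Real.rpow_le_rpow (by positivity) (by linarith) (by linarith))
      (by positivity) (by positivity)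
    rw [← Fin.prod_const]
    exact prod_le_prod (fun j _ => m0 j) fun j _ => min_le_left _ _
  obtain ⟨k, rfl⟩ : ∃ k, d = k + 1 := ⟨d - 1, by omega⟩
  have c2 := not_le.1 (a4 (L₀ + 1) (by omega) (by omega))
  have c3 : (L₀ : ℝ) + 1 ≤ L := by exact_mod_cast h
  rw [Nat.cast_succ] at c2
  have c4 : ∏ j : Fin (k + 1), min δ ((L : ℝ) ^ (j.val + 1))⁻¹ ≤ δ ^ k * ((L : ℝ) ^ (k + 1))⁻¹ := by
    rw [Fin.prod_univ_castSucc, ← Fin.prod_const k δ]
    exact mul_le_mul (prod_le_prod (fun j _ => m0 _) fun j _ => min_le_left _ _)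
      (min_le_right _ _) (m0 _) (prod_nonneg fun _ _ => h0.le)
  refine (mul_le_mul_of_nonneg_right c4 (by positivity)).trans ?_
  have c5 : ((L : ℝ) ^ (k + 1))⁻¹ * (L : ℝ) ^ (2 * t) ≤ δ * (2 * L₀ : ℝ) ^ (2 * t) := by
    rw [inv_mul_eq_div, ← Real.rpow_sub_natCast (by linarith)]
    refine (Real.rpow_le_rpow_of_nonpos (by linarith) c3 (by linarith)).trans ?_
    rw [Real.rpow_sub_natCast (by linarith), div_le_iff₀' (by positivity), ← mul_assoc]
    exact (Real.rpow_le_rpow (by linarith) (by linarith) (by linarith)).trans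
      (le_mul_of_one_le_left (by positivity) c2.le)
  rw [mul_assoc, pow_succ δ k, mul_assoc]
  exact mul_le_mul_of_nonneg_left c5 (by positivity)

/-- from the exponent `b ≤ d / 2` to smaller exponents -/
lemma down {s b ε : ℝ} (hd : 1 ≤ d) (hs : 0 < s) (h4 : s ≤ b) (hb : 2 * b ≤ d) (hε : 0 < ε)
    (h : Wh d b ε) : Wh d s ε := by
  obtain ⟨C, hC, h⟩ := h
  have c2 : (1 : ℝ) ≤ 2 ^ d := one_le_pow₀ one_le_two
  refine ⟨2 ^ d + (1 + 2 ^ d) * C, by nlinarith, fun N δ ξ hN h0 h1 => ?_⟩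
  obtain ⟨lam, m0, hl⟩ := flat hd h0 h1 hN
  have a2 := (hl b (by linarith) hb).2
  have a3 := (hl s hs.le (by linarith)).1
  have a4 : lam ^ (2 * s - 2 * b) * lam ^ (2 * b) = lam ^ (2 * s) := by
    rw [← Real.rpow_add m0, sub_add_cancel]
  have a1 : ∀ t : ℝ, 0 ≤ t → t ^ (2 * s) ≤ lam ^ (2 * s) + lam ^ (2 * s - 2 * b) * t ^ (2 * b) := by
    intro t ht
    rcases le_total t lam with h | h
    · exact (Real.rpow_le_rpow ht h (by linarith)).trans (le_add_of_nonneg_right (by positivity))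
    · refine le_trans ?_ (le_add_of_nonneg_left (by positivity))
      rw [show 2 * s = (2 * s - 2 * b) + 2 * b by ring, Real.rpow_add (by linarith),
        add_sub_cancel_right]
      exact mul_le_mul_of_nonneg_right (Real.rpow_le_rpow_of_nonpos m0 h (by linarith))
        (by positivity)
  have hNe : 1 ≤ (N : ℝ) ^ ε := Real.one_le_rpow (by exact_mod_cast hN) hε.le
  calc _ ≤ ∫ x in Metric.closedBall ξ δ,
        (lam ^ (2 * s) + lam ^ (2 * s - 2 * b) * ‖S N x‖ ^ (2 * b)) :=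
        integral_mono (cint (FIN.cont N (by linarith)))
          (cint (continuous_const.add (continuous_const.mul (FIN.cont N (by linarith)))))
          fun x => a1 _ (norm_nonneg _)
    _ ≤ (2 * δ) ^ d * lam ^ (2 * s) + lam ^ (2 * s - 2 * b) *
        (C * (N : ℝ) ^ ε * ((1 + 2 ^ d) * (δ ^ d * lam ^ (2 * b)))) := by
        rw [integral_add (integrable_const _) ((cint (FIN.cont N (by linarith))).const_mul _),
          setIntegral_const, integral_const_mul, smul_eq_mul]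
        exact add_le_add (mul_le_mul_of_nonneg_right (vol_ball ξ h0.le) (by positivity))
          (mul_le_mul_of_nonneg_left ((h N δ ξ hN h0 h1).trans
            (mul_le_mul_of_nonneg_left a2 (by positivity))) (by positivity))
    _ = (2 ^ d * 1 + (1 + 2 ^ d) * C * (N : ℝ) ^ ε) * (δ ^ d * lam ^ (2 * s)) := by
        rw [← a4, mul_pow]; ring
    _ ≤ (2 ^ d * (N : ℝ) ^ ε + (1 + 2 ^ d) * C * (N : ℝ) ^ ε) * order s d δ N := by gcongr
    _ = _ := by ring

lemma upper (hd : 3 ≤ d) {s ε : ℝ} (hs : 0 < s) (h : 4 ≤ s ∨ 5 ≤ d) (hε : 0 < ε) : Wh d s ε := by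
  rcases le_or_gt 4 s with h4 | h4
  · exact whole (by linarith) hε (pc_high hd h4 (half_pos hε))
  have h5 := h.resolve_left h4.not_ge
  have d5 : (5 : ℝ) ≤ d := by exact_mod_cast h5
  rcases le_total (d : ℝ) (2 * s) with h6 | h6
  · exact whole (by linarith) hε (pc_mid h5 h6 h4.le (half_pos hε))
  rcases le_total (d : ℝ) 8 with h8 | h8
  · exact down (b := d / 2) (by omega) hs (by linarith) (by linarith) hε
      (whole (by linarith) hε (pc_mid h5 (by linarith) (by linarith) (half_pos hε)))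
  · exact down (b := 4) (by omega) hs h4.le (by linarith) hε
      (whole (by norm_num) hε (pc_high hd le_rfl (half_pos hε)))

lemma lower (hd : 1 ≤ d) {s : ℝ} (hs : 1 ≤ s) : ∃ C : ℝ, 0 < C ∧ ∀ (N : ℕ) (δ : ℝ), 1 ≤ N →
    0 < δ → ∃ ξ, order s d δ N ≤ C * localMean s d δ ξ N := by
  have hd0 : (0 : ℝ) < d := by exact_mod_cast hd
  obtain ⟨c, c0, c1, c2⟩ : ∃ c : ℝ, 0 < c ∧ c ≤ (1 / 2) ^ s ∧
      c ≤ (1 / 16 : ℝ) ^ (2 * s) * (1 / (16 * d)) ^ d :=
    ⟨min _ _, lt_min (by positivity) (by positivity), min_le_left _ _, min_le_right _ _⟩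
  refine ⟨2 / c, by positivity, fun N δ hN hδ => ?_⟩
  have : Nonempty (Set.Icc 1 N) := ⟨⟨1, le_rfl, hN⟩⟩
  obtain ⟨⟨L, l1, l2⟩, hL⟩ := exists_eq_ciSup_of_finite (f := fun L : Set.Icc 1 N => spike s d δ L)
  obtain ⟨ξ, a⟩ := lowA hd hs hδ.le hN
  obtain ⟨ξ', b⟩ := lowB hd hs hδ l1 l2
  rw [div_eq_mul_one_div (N : ℝ), Real.mul_rpow (by positivity) (by norm_num)] at a
  have a' : c * (δ ^ d * (N : ℝ) ^ s) ≤ localMean s d δ ξ N :=
    (mul_le_mul_of_nonneg_right c1 (by positivity)).trans (le_of_eq_of_le (by ring) a)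
  have b' := (mul_le_mul_of_nonneg_right c2 (spike_nonneg s hδ.le L)).trans b
  simp only [order, ← hL, div_mul_eq_mul_div, le_div_iff₀ c0]
  rcases le_total (spike s d δ L) (δ ^ d * (N : ℝ) ^ s) with h | h
  · exact ⟨ξ, by nlinarith⟩
  · exact ⟨ξ', by nlinarith⟩

lemma lower' (hd : 5 ≤ d) {s ε : ℝ} (hs : 0 < s) (h1 : s ≤ 1) (hε : 0 < ε) : ∃ C : ℝ,
    ∀ (N : ℕ) (δ : ℝ), 1 ≤ N → 0 < δ → δ ≤ 1 →
      ∃ ξ, order s d δ N ≤ C * (N : ℝ) ^ ε * localMean s d δ ξ N := by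
  obtain ⟨C, c0, hC⟩ := lower (d := d) (by omega) le_rfl
  obtain ⟨C', c1, hC'⟩ := upper (d := d) (by omega) two_pos (Or.inr hd) hε
  have d5 : (5 : ℝ) ≤ d := by exact_mod_cast hd
  refine ⟨(1 + 2 ^ d) * (2 * C * (2 * (C + 1) * (C' * (1 + 2 ^ d)))), fun N δ hN h0 hδ => ?_⟩
  obtain ⟨ξ, hξ⟩ := hC N δ hN h0
  obtain ⟨lam, m0, hl⟩ := flat (d := d) (by omega) h0 hδ hN
  refine ⟨ξ, (hl s hs.le (by linarith)).2.trans ?_⟩
  have hNe : 1 ≤ (N : ℝ) ^ ε := Real.one_le_rpow (by exact_mod_cast hN) hε.le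
  have a1 := (hl 1 zero_le_one (by linarith)).1.trans hξ
  have a2 := (stBR d N 2 δ ξ two_pos h0 hδ).trans ((hC' N δ _ hN h0 hδ).trans
    (mul_le_mul_of_nonneg_left (hl 2 zero_le_two (by linarith)).2 (by positivity)))
  obtain ⟨K, hK⟩ : ∃ K : ℝ, K = 2 * (C + 1) * (C' * (1 + 2 ^ d) * (N : ℝ) ^ ε) := ⟨_, rfl⟩
  have c2 : (1 : ℝ) ≤ 1 + 2 ^ d := le_add_of_nonneg_right (by positivity)
  have K1 : 1 ≤ K := hK ▸ one_le_mul_of_one_le_of_one_le (by linarith)
    (one_le_mul_of_one_le_of_one_le (one_le_mul_of_one_le_of_one_le c1 c2) hNe)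
  have wc : ∀ p : ℝ, 0 ≤ p → IntegrableOn (fun x => ‖weylSum d N x‖ ^ p)
      (Set.Icc ξ fun j => ξ j + δ) := fun p hp =>
    ((Real.continuous_rpow_const hp).comp
      (continuous_weylSum d N).norm).continuousOn.integrableOn_compact isCompact_Icc
  have m1 : 0 < lam * √K := by positivity
  have a3 : localMean 1 d δ ξ N ≤ (lam * √K) ^ (2 * 1 - 2 * s) * localMean s d δ ξ N +
      (lam * √K) ^ (2 * 1 - 2 * 2 : ℝ) * localMean 2 d δ ξ N := by
    simp only [localMean]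
    rw [← integral_const_mul, ← integral_const_mul, ← integral_add
      ((wc _ (by linarith)).const_mul _) ((wc _ (by norm_num)).const_mul _)]
    exact integral_mono (wc _ (by norm_num)) (((wc _ (by linarith)).const_mul _).add
      ((wc _ (by norm_num)).const_mul _)) fun x =>
        split3 (norm_nonneg _) m1 (by linarith) (by linarith) (by norm_num)
  have l0 : 0 ≤ localMean s d δ ξ N := integral_nonneg fun _ => by positivity
  have e1 : (lam * √K) ^ (2 * 1 - 2 * 2 : ℝ) = (lam ^ 2 * K)⁻¹ := by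
    rw [show (2 * 1 - 2 * 2 : ℝ) = -(2 : ℕ) by norm_num, Real.rpow_neg m1.le, Real.rpow_natCast,
      mul_pow, Real.sq_sqrt (by linarith)]
  have e2 : lam ^ (2 * 2 : ℝ) = lam ^ 2 * lam ^ 2 := by
    rw [← pow_add, ← Real.rpow_natCast]; norm_num
  have e3 : lam ^ (2 * 1 : ℝ) = lam ^ 2 := by rw [← Real.rpow_natCast]; norm_num
  have e4 : lam ^ 2 = lam ^ (2 * 1 - 2 * s) * lam ^ (2 * s) := by
    rw [← Real.rpow_add m0, sub_add_cancel, e3]
  have a4 : (lam * √K) ^ (2 * 1 - 2 * s) ≤ lam ^ (2 * 1 - 2 * s) * K := by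
    rw [Real.mul_rpow m0.le (by positivity), Real.sqrt_eq_rpow, ← Real.rpow_mul (by linarith)]
    exact mul_le_mul_of_nonneg_left (Real.rpow_le_self_of_one_le K1 (by linarith)) (by positivity)
  have a5 : (lam ^ 2 * K)⁻¹ * localMean 2 d δ ξ N ≤ δ ^ d * lam ^ 2 / (2 * C) := by
    rw [inv_mul_le_iff₀ (by positivity), mul_div_assoc', le_div_iff₀ (by positivity)]
    refine (mul_le_mul a2 (show 2 * C ≤ 2 * (C + 1) by linarith) (by positivity)
      (by positivity)).trans (le_of_eq ?_)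
    rw [e2, hK]; ring
  rw [e1] at a3
  rw [e3] at a1
  have a6 : δ ^ d * lam ^ 2 ≤ 2 * C * (lam ^ (2 * 1 - 2 * s) * K * localMean s d δ ξ N) := by
    have b1 := mul_le_mul_of_nonneg_left
      (a3.trans (add_le_add (mul_le_mul_of_nonneg_right a4 l0) a5)) c0.le
    have b2 : C * (δ ^ d * lam ^ 2 / (2 * C)) = δ ^ d * lam ^ 2 / 2 := by field_simp
    rw [mul_add, b2] at b1
    have b3 := a1.trans b1
    rw [mul_assoc 2]
    generalize C * (lam ^ (2 * 1 - 2 * s) * K * localMean s d δ ξ N) = X at b3 ⊢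
    generalize δ ^ d * lam ^ 2 = Y at b3 ⊢
    linarith
  have a7 : δ ^ d * lam ^ (2 * s) ≤ 2 * C * K * localMean s d δ ξ N := by
    refine le_of_mul_le_mul_left (a := lam ^ (2 * 1 - 2 * s)) ?_ (by positivity)
    rw [e4] at a6
    exact (le_of_eq (by ring)).trans (a6.trans (le_of_eq (by ring)))
  exact (mul_le_mul_of_nonneg_left a7 (by positivity)).trans (le_of_eq (by rw [hK]; ring))

theorem main (hd : 3 ≤ d) {s ε : ℝ} (hs : 0 < s) (h : 4 ≤ s ∨ 5 ≤ d) (hε : 0 < ε) :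
    ∃ N₀ : ℕ, ∀ N : ℕ, N₀ ≤ N → ∀ δ : ℝ, 0 < δ → δ ≤ 1 →
      (∀ ξ, localMean s d δ ξ N ≤ (N : ℝ) ^ ε * order s d δ N) ∧
        ∃ ξ, (N : ℝ) ^ (-ε) * order s d δ N ≤ localMean s d δ ξ N := by
  obtain ⟨C, -, hC⟩ := upper hd hs h (half_pos hε)
  obtain ⟨C', hC'⟩ : ∃ C : ℝ, ∀ (N : ℕ) (δ : ℝ), 1 ≤ N → 0 < δ → δ ≤ 1 →
      ∃ ξ, order s d δ N ≤ C * (N : ℝ) ^ (ε / 2) * localMean s d δ ξ N := by
    rcases le_total s 1 with h1 | h1
    · exact lower' (h.resolve_left (by linarith)) hs h1 (half_pos hε)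
    obtain ⟨C, c0, hC⟩ := lower (d := d) (by omega) h1
    refine ⟨C, fun N δ hN h0 _ => (hC N δ hN h0).imp fun ξ hξ => hξ.trans
      (mul_le_mul_of_nonneg_right (le_mul_of_one_le_right c0.le ?_)
        (integral_nonneg fun _ => by positivity))⟩
    exact Real.one_le_rpow (by exact_mod_cast hN) (half_pos hε).le
  obtain ⟨N₀, hN₀⟩ := eventually_atTop.1 ((((tendsto_rpow_atTop (half_pos hε)).comp
    tendsto_natCast_atTop_atTop).eventually_ge_atTop (max C C')).and (eventually_ge_atTop 1))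
  refine ⟨N₀, fun N hN δ h0 h1 => ?_⟩
  obtain ⟨hbig, hN1⟩ := hN₀ N hN
  have n0 : (0 : ℝ) < N := by exact_mod_cast hN1
  rw [Function.comp, max_le_iff] at hbig
  have e : (N : ℝ) ^ ε = (N : ℝ) ^ (ε / 2) * (N : ℝ) ^ (ε / 2) := by
    rw [← Real.rpow_add n0, add_halves]
  refine ⟨fun ξ => (stBR d N s δ ξ hs h0 h1).trans ((hC N δ _ hN1 h0 h1).trans
    (mul_le_mul_of_nonneg_right ?_ (order_nonneg s h0.le hN1))), ?_⟩
  · rw [e]
    exact mul_le_mul_of_nonneg_right hbig.1 (by positivity)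
  · obtain ⟨ξ, hξ⟩ := hC' N δ hN1 h0 h1
    refine ⟨ξ, ?_⟩
    have l0 : 0 ≤ localMean s d δ ξ N := integral_nonneg fun _ => by positivity
    rw [Real.rpow_neg n0.le, inv_mul_le_iff₀ (by positivity), e]
    exact hξ.trans (mul_le_mul_of_nonneg_right
      (mul_le_mul_of_nonneg_right hbig.2 (by positivity)) l0)

end Pool.Agent.Lib.SC17
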