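import Pool.Agent.Lib.SC17.Loc

/-! The upper bound. -/

namespace Pool.Agent.Lib.SC17

open MeasureTheory Filter Finset WC SC

variable {d : ℕ}

lemma spike_nonneg (s : ℝ) {δ : ℝ} (hδ : 0 ≤ δ) (L : ℕ) : 0 ≤ spike s d δ L :=
  mul_nonneg (by positivity) (prod_nonneg fun j _ => le_min hδ (by positivity))

lemma spike_le (s δ : ℝ) {L N : ℕ} (h1 : 1 ≤ L) (h2 : L ≤ N) :
    spike s d δ L ≤ ⨆ L : Set.Icc 1 N, spike s d δ L :=
  le_ciSup (f := fun L : Set.Icc 1 N => spike s d δ L) (Finite.bddAbove_range _) ⟨L, h1, h2⟩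

lemma fa_shift (a : ℕ → ℂ) (c σ : ℕ) (x y : TT d) :
    fa d a c σ (x + y) = fa d (fun m => a m * ch (mom d (m : ℕ)) y) c σ x := by
  simp only [fa, ch_add_pt, mul_assoc, mul_comm (ch _ y)]

lemma piece0 {s ε : ℝ} (h4 : 4 ≤ s) (h1 : s ≤ sd d) (hε : 0 < ε) : ∃ C : ℝ, 1 ≤ C ∧
    ∀ (n : ℕ) (a : ℕ → ℂ) (δ : ℝ) (ξ : TT d), (∀ y, ‖a y‖ ≤ 1) → 0 ≤ δ →
      ∫ x in Metric.closedBall ξ δ, ‖fa d a (2 ^ n) (2 ^ n) x‖ ^ (2 * s) ≤
        C * ((2 : ℝ) ^ n) ^ ε * (δ ^ d * ((2 : ℝ) ^ n) ^ s + spike s d δ (2 ^ n)) := by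
  obtain ⟨η, C, η0, hη, hC, h⟩ := core h4 h1 hε
  obtain ⟨C', hC', h'⟩ := loc (d := d) (s := s) (by linarith)
  have c1 : (1 : ℝ) ≤ 16 ^ d := one_le_pow₀ (by norm_num)
  have c2 : (1 : ℝ) ≤ (2 ^ (d + 1)) ^ d := one_le_pow₀ (one_le_pow₀ one_le_two)
  refine ⟨16 ^ d * (C' * (2 ^ (d + 1)) ^ d) * C, one_le_mul_of_one_le_of_one_le
    (one_le_mul_of_one_le_of_one_le c1 (one_le_mul_of_one_le_of_one_le hC' c2)) hC,
    fun n a δ ξ ha hδ => ?_⟩
  have hM : (1 : ℝ) ≤ 2 ^ n := one_le_pow₀ one_le_two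
  have hM0 : (0 : ℝ) < 2 ^ n := by positivity
  have hH : (1 : ℝ) ≤ 2 ^ ⌊n * η⌋₊ := one_le_pow₀ one_le_two
  have hb : ∀ y : TT d, II 0 (2 ^ ⌊n * η⌋₊)
      (fun x => ‖fa d (fun m => a m * ch (mom d (m : ℕ)) y) (2 ^ n) (2 ^ n) x‖ ^ (2 * s)) ≤
        C * ((2 : ℝ) ^ n) ^ (s + ε) := fun y =>
    h n _ _ (Nat.floor_le (by positivity)) fun m => by simpa using ha m
  have hMH : ((2 : ℝ) ^ n) ^ η ≤ 2 * 2 ^ ⌊n * η⌋₊ := by
    rw [← pow_succ', ← Real.rpow_natCast_mul two_pos.le, ← Real.rpow_natCast]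
    refine Real.rpow_le_rpow_of_exponent_le one_le_two ?_
    push_cast
    exact (Nat.lt_floor_add_one _).le
  have Fc : Continuous fun x : TT d => ‖fa d a (2 ^ n) (2 ^ n) x‖ ^ (2 * s) :=
    (Real.continuous_rpow_const (by linarith)).comp (bas.wr.fa_cont d a _ _).norm
  have s0 := spike_nonneg (d := d) s hδ (2 ^ n)
  generalize (2 : ℝ) ^ ⌊n * η⌋₊ = H at hH hb hMH
  have H0 : 0 < H := by linarith
  rcases le_total (1 / H) δ with hc | hc
  · have h2 := MAIN.cover Fc (fun _ => by positivity) hH hδ (fun y => by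
      refine le_of_eq_of_le ?_ (hb y)
      simp only [II, Wr, Nat.zero_le, if_true, fa_shift]) ξ
    refine h2.trans ?_
    calc _ ≤ (16 * δ) ^ d * (C * ((2 : ℝ) ^ n) ^ (s + ε)) :=
          mul_le_mul_of_nonneg_right (pow_le_pow_left₀ (by positivity) (by linarith) d)
            (by positivity)
      _ = 16 ^ d * 1 * C * ((2 : ℝ) ^ n) ^ ε * (δ ^ d * ((2 : ℝ) ^ n) ^ s + 0) := by
        rw [Real.rpow_add hM0, mul_pow]; ring
      _ ≤ _ := by gcongr; exact one_le_mul_of_one_le_of_one_le hC' c2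
  rw [← setInt_mp (measurePreserving_add_right volume ξ) measurableSet_closedBall
    Fc.aestronglyMeasurable, Metric.preimage_add_right_closedBall, sub_self]
  simp only [fa_shift]
  have h2 := h' H δ (fun j => max H ((2 * 2 ^ n) ^ (j.val + 1))) _ hH hδ hc
    (fun j => le_max_left _ _) (Sp_mono (by
      rintro _ ⟨m, -, hm, rfl⟩ j
      refine le_trans ?_ (le_max_right _ _)
      have : (m : ℝ) ≤ 2 * 2 ^ n := by exact_mod_cast (by omega : m ≤ 2 * 2 ^ n)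
      simp only [mom]
      push_cast
      rw [abs_of_nonneg (by positivity)]
      gcongr) (bas.wr.fa_mem d (fun m => a m * ch (mom d (m : ℕ)) ξ) (2 ^ n) (2 ^ n)))
  have h3 : ∏ j : Fin d, max H ((2 * 2 ^ n) ^ (j.val + 1)) / H *
      min δ (max H ((2 * 2 ^ n) ^ (j.val + 1)))⁻¹ ≤ (2 ^ (d + 1)) ^ d * (((2 : ℝ) ^ n) ^ s *
        ∏ j : Fin d, min δ (((2 : ℝ) ^ n) ^ (j.val + 1))⁻¹) := by
    rw [← hη, Real.rpow_sum_of_pos hM0, ← Fin.prod_const d, ← prod_mul_distrib, ← prod_mul_distrib]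
    refine prod_le_prod (fun j _ => mul_nonneg (by positivity) (le_min hδ (by positivity)))
      fun j _ => ?_
    rw [← mul_assoc]
    refine mul_le_mul ?_ (min_le_min_left _ (inv_anti₀ (by positivity)
      (le_trans (by gcongr; linarith) (le_max_right _ _)))) (le_min hδ (by positivity))
      (by positivity)
    have b1 : (1 : ℝ) ≤ (2 ^ n) ^ max ((j.val : ℝ) + 1 - η) 0 :=
      Real.one_le_rpow hM (le_max_right _ _)
    have b2 : ((2 : ℝ) ^ n) ^ (j.val + 1) ≤ (2 ^ n) ^ max ((j.val : ℝ) + 1 - η) 0 * (2 * H) := by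
      refine le_trans ?_ (mul_le_mul_of_nonneg_left hMH (by positivity))
      rw [← Real.rpow_add hM0, ← Real.rpow_natCast]
      refine Real.rpow_le_rpow_of_exponent_le hM ?_
      push_cast
      linarith [le_max_left ((j.val : ℝ) + 1 - η) 0]
    have b3 : (2 : ℝ) ^ (j.val + 1) ≤ 2 ^ d := pow_le_pow_right₀ one_le_two j.2
    have b4 : (1 : ℝ) ≤ 2 ^ (d + 1) := one_le_pow₀ one_le_two
    rw [div_le_iff₀ H0]
    refine max_le (le_mul_of_one_le_left H0.le (one_le_mul_of_one_le_of_one_le b4 b1)) ?_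
    rw [mul_pow]
    exact (mul_le_mul b3 b2 (by positivity) (by positivity)).trans (le_of_eq (by ring))
  have p0 : 0 ≤ ∏ j : Fin d, min δ (((2 : ℝ) ^ n) ^ (j.val + 1))⁻¹ :=
    prod_nonneg fun j _ => le_min hδ (by positivity)
  have i0 : 0 ≤ II 0 H fun x =>
      ‖fa d (fun m => a m * ch (mom d (m : ℕ)) ξ) (2 ^ n) (2 ^ n) x‖ ^ (2 * s) :=
    integral_nonneg fun x => mul_nonneg (by positivity) (bas.wr.pos d 0 H x H0).le
  refine h2.trans ((mul_le_mul (mul_le_mul_of_nonneg_left h3 (by linarith)) (hb ξ) i0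
    (by positivity)).trans ?_)
  calc _ = 1 * (C' * (2 ^ (d + 1)) ^ d) * C * ((2 : ℝ) ^ n) ^ ε * (0 + spike s d δ (2 ^ n)) := by
        rw [spike, two_mul s]
        push_cast
        rw [Real.rpow_add hM0, Real.rpow_add hM0]
        ring
    _ ≤ _ := by gcongr; positivity

lemma prod_pow (M : ℝ) (d : ℕ) : ∏ j : Fin d, M ^ (j.val + 1) = M ^ sd d := by
  rw [prod_pow_eq_pow_sum]
  congr 1
  have : ∀ k : ℕ, (∑ j ∈ range k, (j + 1)) * 2 = k * (k + 1) := fun k => by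
    induction k with
    | zero => rfl
    | succ k ih => rw [sum_range_succ, add_mul, ih]; ring
  rw [Fin.sum_univ_eq_sum_range (fun j => j + 1), sd, ← this, Nat.mul_div_cancel _ two_pos]

lemma piece {s ε : ℝ} (hd : 3 ≤ d) (h4 : 4 ≤ s) (hε : 0 < ε) : ∃ C : ℝ, 1 ≤ C ∧
    ∀ (n : ℕ) (a : ℕ → ℂ) (δ : ℝ) (ξ : TT d), (∀ y, ‖a y‖ ≤ 1) → 0 ≤ δ → δ ≤ 1 →
      ∫ x in Metric.closedBall ξ δ, ‖fa d a (2 ^ n) (2 ^ n) x‖ ^ (2 * s) ≤
        C * ((2 : ℝ) ^ n) ^ ε * (δ ^ d * ((2 : ℝ) ^ n) ^ s + spike s d δ (2 ^ n)) := by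
  rcases le_total s (sd d) with h1 | h1
  · obtain ⟨C, hC, h⟩ := piece0 h4 h1 hε
    exact ⟨C, hC, fun n a δ ξ ha h0 _ => h n a δ ξ ha h0⟩
  have hd' : (3 : ℝ) ≤ d := by exact_mod_cast hd
  have h6 : (4 : ℝ) ≤ sd d := by rw [sd_cast]; nlinarith
  obtain ⟨C, hC, h⟩ := piece0 h6 le_rfl hε
  refine ⟨2 * C, by linarith, fun n a δ ξ ha h0 hδ => ?_⟩
  have hM : (1 : ℝ) ≤ 2 ^ n := one_le_pow₀ one_le_two
  have hM0 : (0 : ℝ) < 2 ^ n := by positivity
  have fc := (bas.wr.fa_cont d a (2 ^ n) (2 ^ n)).norm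
  have a1 : ∫ x in Metric.closedBall ξ δ, ‖fa d a (2 ^ n) (2 ^ n) x‖ ^ (2 * s) ≤
      ((2 : ℝ) ^ n) ^ (2 * s - 2 * sd d) *
        ∫ x in Metric.closedBall ξ δ, ‖fa d a (2 ^ n) (2 ^ n) x‖ ^ (2 * (sd d : ℝ)) := by
    rw [← integral_const_mul]
    refine integral_mono (cint ((Real.continuous_rpow_const (by linarith)).comp fc))
      ((cint ((Real.continuous_rpow_const (by linarith)).comp fc)).const_mul _) fun x => ?_
    beta_reduce
    have b1 := bas.wr.fa_le d a (2 ^ n) (2 ^ n) x ha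
    push_cast at b1
    rw [show 2 * s = (2 * s - 2 * sd d) + 2 * sd d by ring,
      Real.rpow_add' (norm_nonneg _) (by linarith), add_sub_cancel_right]
    exact mul_le_mul_of_nonneg_right (Real.rpow_le_rpow (norm_nonneg _) b1 (by linarith))
      (by positivity)
  have p0 : 0 ≤ ∏ j : Fin d, min δ (((2 : ℝ) ^ n) ^ (j.val + 1))⁻¹ :=
    prod_nonneg fun j _ => le_min h0 (by positivity)
  have a2 : δ ^ d ≤ ((2 : ℝ) ^ n) ^ (sd d : ℝ) *
      ∏ j : Fin d, min δ (((2 : ℝ) ^ n) ^ (j.val + 1))⁻¹ := by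
    rw [Real.rpow_natCast, ← prod_pow, ← prod_mul_distrib, ← Fin.prod_const]
    refine prod_le_prod (fun _ _ => h0) fun j _ => ?_
    rw [mul_min_of_nonneg _ _ (by positivity), mul_inv_cancel₀ (by positivity)]
    exact le_min (le_mul_of_one_le_left h0 (one_le_pow₀ hM)) hδ
  have a3 : δ ^ d * ((2 : ℝ) ^ n) ^ (sd d : ℝ) + spike (sd d) d δ (2 ^ n) ≤
      2 * spike (sd d) d δ (2 ^ n) := by
    rw [two_mul, spike, two_mul]
    push_cast
    rw [Real.rpow_add hM0, mul_assoc, mul_comm (δ ^ d)]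
    gcongr
  have a4 : ((2 : ℝ) ^ n) ^ (2 * s - 2 * sd d) * spike (sd d) d δ (2 ^ n) =
      spike s d δ (2 ^ n) := by
    simp only [spike]
    push_cast
    rw [← mul_assoc, ← Real.rpow_add hM0, sub_add_cancel]
  refine a1.trans ((mul_le_mul_of_nonneg_left ((h n a δ ξ ha h0).trans
    (mul_le_mul_of_nonneg_left a3 (by positivity))) (by positivity)).trans ?_)
  calc _ = 2 * C * ((2 : ℝ) ^ n) ^ ε * (0 + spike s d δ (2 ^ n)) := by rw [← a4]; ring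
    _ ≤ _ := by gcongr; positivity

lemma order_nonneg (s : ℝ) {δ : ℝ} (hδ : 0 ≤ δ) {N : ℕ} (hN : 1 ≤ N) : 0 ≤ order s d δ N :=
  add_nonneg (by positivity) ((spike_nonneg s hδ 1).trans (spike_le s δ le_rfl hN))

/-- the bound for dyadic pieces -/
def Pc (d : ℕ) (s ε : ℝ) : Prop := ∃ C : ℝ, 1 ≤ C ∧
  ∀ (N n : ℕ) (a : ℕ → ℂ) (δ : ℝ) (ξ : TT d), 2 ^ n ≤ N → (∀ y, ‖a y‖ ≤ 1) → 0 < δ → δ ≤ 1 →
    ∫ x in Metric.closedBall ξ δ, ‖fa d a (2 ^ n) (2 ^ n) x‖ ^ (2 * s) ≤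
      C * (N : ℝ) ^ ε * order s d δ N

/-- the bound for the whole sum -/
def Wh (d : ℕ) (s ε : ℝ) : Prop := ∃ C : ℝ, 1 ≤ C ∧
  ∀ (N : ℕ) (δ : ℝ) (ξ : TT d), 1 ≤ N → 0 < δ → δ ≤ 1 →
    ∫ x in Metric.closedBall ξ δ, ‖S N x‖ ^ (2 * s) ≤ C * (N : ℝ) ^ ε * order s d δ N

lemma pc_high {s ε : ℝ} (hd : 3 ≤ d) (h4 : 4 ≤ s) (hε : 0 < ε) : Pc d s ε := by
  obtain ⟨C, hC, h⟩ := piece hd h4 hε
  refine ⟨C, hC, fun N n a δ ξ hn ha h0 h1 => (h n a δ ξ ha h0.le h1).trans ?_⟩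
  have hn' : (2 : ℝ) ^ n ≤ N := by exact_mod_cast hn
  have := spike_le (d := d) s δ Nat.one_le_two_pow hn
  have := spike_nonneg (d := d) s h0.le (2 ^ n)
  rw [order]
  gcongr

lemma whole {s ε : ℝ} (h4 : 1 ≤ s) (hε : 0 < ε) (h : Pc d s (ε / 2)) : Wh d s ε := by
  obtain ⟨C, hC, h⟩ := h
  obtain ⟨C', hC', h'⟩ := MAIN.log_bound (p := 2 * s) (by linarith) (half_pos hε)
  refine ⟨C' * C, one_le_mul_of_one_le_of_one_le hC' hC, fun N δ ξ hN hδ h1 => ?_⟩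
  have hN0 : (0 : ℝ) < N := by exact_mod_cast hN
  have o0 := order_nonneg (d := d) s hδ.le hN
  have hp : ∀ n, 2 ^ n ≤ N → ∫ x in Metric.closedBall ξ δ, ‖MAIN.pc N n x‖ ^ (2 * s) ≤
      C * (N : ℝ) ^ (ε / 2) * order s d δ N := fun n hn => by
    refine le_of_eq_of_le ?_ (h N n (fun m => if m ≤ N then 1 else 0) δ ξ hn
      (fun m => by split_ifs <;> simp) hδ h1)
    simp only [fa, MAIN.pc, pow_succ 2 n, mul_two]
  set L := Nat.log 2 N + 1 with hL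
  have hL0 : (0 : ℝ) < L := by positivity
  have hc : ∀ n, Continuous fun x : TT d => ‖MAIN.pc N n x‖ ^ (2 * s) := fun n =>
    (Real.continuous_rpow_const (by positivity)).comp (MAIN.cont_pc N n).norm
  calc _ ≤ ∫ x in Metric.closedBall ξ δ,
        (L : ℝ) ^ (2 * s - 1) * ∑ n ∈ range L, ‖MAIN.pc N n x‖ ^ (2 * s) := by
        refine integral_mono (cint (FIN.cont N (by positivity)))
          (cint (continuous_const.mul (continuous_finsetSum _ fun n _ => hc n))) fun x => ?_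
        beta_reduce
        rw [MAIN.S_split (Nat.lt_pow_succ_log_self one_lt_two N) x]
        refine (Real.rpow_le_rpow (norm_nonneg _) (norm_sum_le _ _) (by positivity)).trans ?_
        simpa using Real.rpow_sum_le_const_mul_sum_rpow_of_nonneg (range L)
          (f := fun n => ‖MAIN.pc N n x‖) (p := 2 * s) (by linarith) fun _ _ => norm_nonneg _
    _ ≤ (L : ℝ) ^ (2 * s - 1) * (L * (C * (N : ℝ) ^ (ε / 2) * order s d δ N)) := by
        rw [integral_const_mul, integral_finsetSum _ fun n _ => cint (hc n)]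
        refine mul_le_mul_of_nonneg_left ((sum_le_card_nsmul _ _ _ fun n hn => hp n ?_).trans
          (by simp)) (by positivity)
        exact Nat.pow_le_of_le_log (by omega) (by have := mem_range.1 hn; omega)
    _ ≤ C' * (N : ℝ) ^ (ε / 2) * (C * (N : ℝ) ^ (ε / 2) * order s d δ N) := by
        rw [← mul_assoc, ← Real.rpow_add_one hL0.ne', sub_add_cancel]
        exact mul_le_mul_of_nonneg_right (h' N hN) (by positivity)
    _ = _ := by
        conv_rhs => rw [← add_halves ε, Real.rpow_add hN0]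
        ring

end Pool.Agent.Lib.SC17
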